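import Pool.Agent.Lib.MP_478558_lc.Name

/-!
A group acting on the names; hereditarily symmetric names.
-/

namespace MP478558

/-- an action of `G` on the preorder `P` by order automorphisms -/
class OrdAct (G P : Type) [Group G] [Preorder P] extends MulAction G P where
  act_le : ∀ (g : G) {p q : P}, p ≤ q → g • p ≤ g • q

namespace Name

variable {P G : Type} [Preorder P] [Group G] [OrdAct G P]

/-- image of a lower set -/
def actLow (g : G) (b : LowerSet P) : LowerSet P where
  carrier := {p | g⁻¹ • p ∈ b}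
  lower' := fun _ _ hqp hp => b.lower (OrdAct.act_le g⁻¹ hqp) hp

lemma mem_actLow (g : G) (b : LowerSet P) (p : P) : p ∈ actLow g b ↔ g⁻¹ • p ∈ b := Iff.rfl

lemma smul_mem_actLow (g : G) (b : LowerSet P) (p : P) : g • p ∈ actLow g b ↔ p ∈ b := by
  rw [mem_actLow, inv_smul_smul]

/-- the action on names -/
def act (g : G) : Name P → Name P
  | mk ι A b => mk ι (fun i => act g (A i)) (fun i => actLow g (b i))

lemma act_one (x : Name P) : act (1 : G) x = x := by
  induction x with
  | mk ι A b ih =>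
    simp only [act, mk.injEq, heq_eq_eq, true_and]
    refine ⟨funext ih, funext fun i => ?_⟩
    apply LowerSet.ext
    ext p
    simp [actLow]

lemma act_mul (g h : G) (x : Name P) : act (g * h) x = act g (act h x) := by
  induction x with
  | mk ι A b ih =>
    simp only [act, mk.injEq, heq_eq_eq, true_and]
    refine ⟨funext ih, funext fun i => ?_⟩
    apply LowerSet.ext
    ext p
    simp only [actLow, mul_inv_rev, mul_smul]
    exact Iff.rfl

instance : MulAction G (Name P) where
  smul := act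
  one_smul := act_one
  mul_smul := act_mul

lemma smul_mk (g : G) (ι : Type) (A : ι → Name P) (b : ι → LowerSet P) :
    g • mk ι A b = mk ι (fun i => g • A i) (fun i => actLow g (b i)) := rfl

lemma feq_smul_of (g : G) {x y : Name P} {p : P} (h : feq x y p) :
    feq (g • x) (g • y) (g • p) := by
  induction x generalizing y p with
  | mk ι A b ih =>
    cases y with
    | mk κ B c =>
      have key : ∀ {q r : P}, q ≤ g • r → g⁻¹ • q ≤ r := fun {q r} h => by
        have := OrdAct.act_le g⁻¹ h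
        rwa [inv_smul_smul] at this
      have key2 : ∀ {q r : P}, r ≤ g⁻¹ • q → g • r ≤ q := fun {q r} h => by
        have := OrdAct.act_le g h
        rwa [smul_inv_smul] at this
      refine ⟨fun i q hq hqi q' hq' => ?_, fun j q hq hqj q' hq' => ?_⟩
      · obtain ⟨r, hr, j, hj, he⟩ := h.1 i (g⁻¹ • q) (key hq) hqi (g⁻¹ • q')
          (OrdAct.act_le g⁻¹ hq')
        exact ⟨g • r, key2 hr, j, (smul_mem_actLow g _ _).2 hj, ih i he⟩
      · obtain ⟨r, hr, i, hi, he⟩ := h.2 j (g⁻¹ • q) (key hq) hqj (g⁻¹ • q')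
          (OrdAct.act_le g⁻¹ hq')
        exact ⟨g • r, key2 hr, i, (smul_mem_actLow g _ _).2 hi, ih i he⟩

lemma feq_smul (g : G) (x y : Name P) (p : P) : feq (g • x) (g • y) (g • p) ↔ feq x y p := by
  refine ⟨fun h => ?_, feq_smul_of g⟩
  have := feq_smul_of g⁻¹ h
  simpa only [inv_smul_smul] using this

lemma fmem_smul_of (g : G) {x y : Name P} {p : P} (h : fmem x y p) :
    fmem (g • x) (g • y) (g • p) := by
  intro q hq
  have hq' : g⁻¹ • q ≤ p := by
    have := OrdAct.act_le g⁻¹ hq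
    rwa [inv_smul_smul] at this
  obtain ⟨r, hr, j, hj, he⟩ := h _ hq'
  refine ⟨g • r, ?_, ?_⟩
  · have := OrdAct.act_le g hr
    rwa [smul_inv_smul] at this
  · cases y with
    | mk κ B c => exact ⟨j, (smul_mem_actLow g _ _).2 hj, feq_smul_of g he⟩

lemma fmem_smul (g : G) (x y : Name P) (p : P) : fmem (g • x) (g • y) (g • p) ↔ fmem x y p := by
  refine ⟨fun h => ?_, fmem_smul_of g⟩
  have := fmem_smul_of g⁻¹ h
  simpa only [inv_smul_smul] using this

/-- symmetric names -/
def Sym (𝓕 : Filter G) (x : Name P) : Prop := ∀ᶠ g in 𝓕, ∀ p : P, feq (g • x) x p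

/-- hereditarily symmetric names -/
def HSp (𝓕 : Filter G) : Name P → Prop
  | mk ι A b => (∀ i, HSp 𝓕 (A i)) ∧ Sym 𝓕 (mk ι A b)

variable {𝓕 : Filter G}

lemma HSp.ch {x : Name P} (h : HSp 𝓕 x) (i : x.ix) : HSp 𝓕 (x.ch i) := by
  cases x; exact h.1 i

lemma HSp.sym {x : Name P} (h : HSp 𝓕 x) : Sym 𝓕 x := by
  cases x; exact h.2

lemma HSp.intro {x : Name P} (h : ∀ i, HSp 𝓕 (x.ch i)) (h2 : Sym 𝓕 x) : HSp 𝓕 x := by
  cases x; exact ⟨h, h2⟩

/-- normality of a filter on a group -/
def Normal (𝓕 : Filter G) : Prop := ∀ g : G, Filter.Tendsto (fun k => g⁻¹ * k * g) 𝓕 𝓕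

lemma Sym.smul (h𝓕 : Normal 𝓕) {x : Name P} (h : Sym 𝓕 x) (g : G) : Sym 𝓕 (g • x) := by
  have := (h𝓕 g).eventually h
  filter_upwards [this] with k hk p
  have h2 := (feq_smul g _ _ _).2 (hk (g⁻¹ • p))
  rw [smul_inv_smul, ← mul_smul, ← mul_assoc, ← mul_assoc, mul_inv_cancel, one_mul, mul_smul] at h2
  exact h2

lemma HSp.smul (h𝓕 : Normal 𝓕) {x : Name P} (h : HSp 𝓕 x) (g : G) : HSp 𝓕 (g • x) := by
  induction x with
  | mk ι A b ih => exact ⟨fun i => ih i (h.1 i), h.2.smul h𝓕 g⟩

end Name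

end MP478558
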