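import Pool.Agent.Lib.MP_478558_lc.Forces

/-!
The axioms of ZF are forced over the hereditarily symmetric names.
-/

namespace MP478558

open Name Fml

variable {P G : Type} [Preorder P] [Group G] [OrdAct G P] {𝓕 : Filter G}

/-- the empty name -/
def emptyN : HS P 𝓕 := ⟨mk Empty Empty.elim Empty.elim, ⟨fun i => i.elim,
  Filter.Eventually.of_forall fun g p => by
    rw [feq_iff']; exact ⟨fun i => i.elim, fun i => i.elim⟩⟩⟩

instance : Nonempty (HS P 𝓕) := ⟨emptyN⟩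

/-- child of a hereditarily symmetric name -/
def hch (x : HS P 𝓕) (i : x.1.ix) : HS P 𝓕 := ⟨x.1.ch i, x.2.ch i⟩

lemma exists_pairN (h𝓕 : Normal 𝓕) (x y : HS P 𝓕) : ∃ w : HS P 𝓕, ∀ (z : HS P 𝓕) (p : P),
    fmem z.1 w.1 p ↔ Forces 𝓕 (disj (.eq 0 (Fin.succ 0)) (.eq 0 (Fin.succ (Fin.succ 0))))
      (Fin.cons z (Fin.cons x (Fin.cons y Fin.elim0))) p := by
  have key : ∀ (z : HS P 𝓕) (p : P),
      fmem z.1 (mk Bool (fun b => cond b x.1 y.1) (fun _ => ⊤)) p ↔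
      Forces 𝓕 (disj (.eq 0 (Fin.succ 0)) (.eq 0 (Fin.succ (Fin.succ 0))))
      (Fin.cons z (Fin.cons x (Fin.cons y Fin.elim0))) p := by
    intro z p
    simp only [forces_disj, forces_eq, Fin.cons_zero, Fin.cons_succ, fmem]
    refine forall_congr' fun q => forall_congr' fun hq => exists_congr fun r => and_congr Iff.rfl ?_
    constructor
    · rintro ⟨b, -, hb⟩
      cases b
      · exact Or.inr hb
      · exact Or.inl hb
    · rintro (h | h)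
      · exact ⟨true, trivial, h⟩
      · exact ⟨false, trivial, h⟩
  refine ⟨⟨_, hsp_of_formula h𝓕 ?_ _ _ key⟩, key⟩
  intro b
  cases b
  · exact y.2
  · exact x.2

lemma exists_unionN (h𝓕 : Normal 𝓕) (x : HS P 𝓕) : ∃ w : HS P 𝓕, ∀ (z : HS P 𝓕) (p : P),
    fmem z.1 w.1 p ↔ Forces 𝓕 (ex (conj (.mem 0 (Fin.succ (Fin.succ 0))) (.mem (Fin.succ 0) 0)))
      (Fin.cons z (Fin.cons x Fin.elim0)) p := by
  have key : ∀ (z : HS P 𝓕) (p : P),
      fmem z.1 (mk (Σ i : x.1.ix, (x.1.ch i).ix) (fun a => (x.1.ch a.1).ch a.2)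
        (fun a => x.1.cd a.1 ⊓ (x.1.ch a.1).cd a.2)) p ↔
      Forces 𝓕 (ex (conj (.mem 0 (Fin.succ (Fin.succ 0))) (.mem (Fin.succ 0) 0)))
      (Fin.cons z (Fin.cons x Fin.elim0)) p := by
    intro z p
    simp only [forces_ex, forces_conj, forces_mem, Fin.cons_zero, Fin.cons_succ]
    constructor
    · intro h q hq
      obtain ⟨r, hr, ⟨i, j⟩, hj, he⟩ := h q hq
      exact ⟨r, hr, hch x i, fmem_ch x.1 i hj.1,
        fmem_congr_left (feq_symm he) (fmem_ch (x.1.ch i) j hj.2)⟩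
    · intro h q hq
      obtain ⟨r, hr, y, h1, h2⟩ := h q hq
      obtain ⟨s, hs, i, hi, he⟩ := h1 r le_rfl
      obtain ⟨t, ht, j, hj, he'⟩ := fmem_congr_right he (fmem_mono hs h2) s le_rfl
      exact ⟨t, ht.trans (hs.trans hr), ⟨i, j⟩, ⟨(x.1.cd i).lower ht hi, hj⟩, he'⟩
  refine ⟨⟨_, hsp_of_formula h𝓕 ?_ _ _ key⟩, key⟩
  rintro ⟨i, j⟩
  exact (x.2.ch i).ch j

/-- the name of the subset of `x` defined by `φ` -/
def sepN {n : ℕ} (φ : Fml (n + 1)) (v : Fin n → HS P 𝓕) (x : HS P 𝓕) : Name P :=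
  mk x.1.ix x.1.ch fun i => x.1.cd i ⊓ ⟨{q | Forces 𝓕 φ (Fin.cons (hch x i) v) q},
    fun _ _ h h1 => forces_mono φ h h1⟩

lemma fmem_sepN {n : ℕ} (φ : Fml (n + 1)) (v : Fin n → HS P 𝓕) (x z : HS P 𝓕) (p : P) :
    fmem z.1 (sepN φ v x) p ↔ fmem z.1 x.1 p ∧ Forces 𝓕 φ (Fin.cons z v) p := by
  have hc : ∀ (i : x.1.ix) (r : P), feq z.1 (x.1.ch i) r →
      (Forces 𝓕 φ (Fin.cons z v) r ↔ Forces 𝓕 φ (Fin.cons (hch x i) v) r) := by
    intro i r h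
    refine forces_congr φ fun j => ?_
    refine Fin.cases ?_ (fun j => ?_) j
    · exact h
    · exact feq_refl _ _
  constructor
  · intro h
    refine ⟨fun q hq => ?_, forces_stable φ fun q hq => ?_⟩
    · obtain ⟨r, hr, i, hi, he⟩ := h q hq
      exact ⟨r, hr, i, hi.1, he⟩
    · obtain ⟨r, hr, i, hi, he⟩ := h q hq
      exact ⟨r, hr, (hc i r he).2 hi.2⟩
  · rintro ⟨h1, h2⟩ q hq
    obtain ⟨r, hr, i, hi, he⟩ := h1 q hq
    exact ⟨r, hr, i, ⟨hi, (hc i r he).1 (forces_mono φ (hr.trans hq) h2)⟩, he⟩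

/-- renaming used in the separation axiom -/
def fsep (n : ℕ) : Fin (n + 1) → Fin (n + 2) := Fin.cons 0 fun i => i.succ.succ

lemma cons_comp_fsep {α : Type*} {n : ℕ} (z x : α) (v : Fin n → α) :
    (Fin.cons z (Fin.cons x v) : Fin (n + 2) → α) ∘ fsep n = Fin.cons z v := by
  funext i
  refine Fin.cases ?_ (fun i => ?_) i <;> simp [fsep]

/-- the formula used in the separation axiom -/
def sepF {n : ℕ} (φ : Fml (n + 1)) : Fml (n + 2) := conj (.mem 0 (Fin.succ 0)) (ren (fsep n) φ)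

lemma forces_sepF {n : ℕ} (φ : Fml (n + 1)) (v : Fin n → HS P 𝓕) (x z : HS P 𝓕) (p : P) :
    Forces 𝓕 (sepF φ) (Fin.cons z (Fin.cons x v)) p ↔
      fmem z.1 x.1 p ∧ Forces 𝓕 φ (Fin.cons z v) p := by
  simp only [sepF, forces_conj, forces_ren, forces_mem, cons_comp_fsep, Fin.cons_zero,
    Fin.cons_succ]

lemma hsp_sepN (h𝓕 : Normal 𝓕) {n : ℕ} (φ : Fml (n + 1)) (v : Fin n → HS P 𝓕) (x : HS P 𝓕) :
    HSp 𝓕 (sepN φ v x) :=
  hsp_of_formula h𝓕 (fun i => x.2.ch i) (sepF φ) (Fin.cons x v)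
    fun y p => by rw [fmem_sepN, forces_sepF]

lemma exists_sepN (h𝓕 : Normal 𝓕) {n : ℕ} (φ : Fml (n + 1)) (v : Fin n → HS P 𝓕) (x : HS P 𝓕) :
    ∃ w : HS P 𝓕, ∀ (z : HS P 𝓕) (p : P),
      fmem z.1 w.1 p ↔ Forces 𝓕 (sepF φ) (Fin.cons z (Fin.cons x v)) p :=
  ⟨⟨_, hsp_sepN h𝓕 φ v x⟩, fun z p => by rw [fmem_sepN, forces_sepF]⟩

/-- the name of the power set of `x` -/
def powN (𝓕 : Filter G) (x : Name P) : Name P :=
  mk {b : x.ix → LowerSet P // HSp 𝓕 (mk x.ix x.ch b) ∧ ∀ i, b i ≤ x.cd i}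
    (fun b => mk x.ix x.ch b.1) (fun _ => ⊤)

lemma exists_powN (h𝓕 : Normal 𝓕) (x : HS P 𝓕) : ∃ w : HS P 𝓕, ∀ (z : HS P 𝓕) (p : P),
    fmem z.1 w.1 p ↔ Forces 𝓕 (.all (.imp (.mem 0 (Fin.succ 0)) (.mem 0 (Fin.succ (Fin.succ 0)))))
      (Fin.cons z (Fin.cons x Fin.elim0)) p := by
  have key : ∀ (z : HS P 𝓕) (p : P), fmem z.1 (powN 𝓕 x.1) p ↔
      Forces 𝓕 (.all (.imp (.mem 0 (Fin.succ 0)) (.mem 0 (Fin.succ (Fin.succ 0)))))
      (Fin.cons z (Fin.cons x Fin.elim0)) p := by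
    intro z p
    simp only [forces_all, forces_imp, forces_mem, Fin.cons_zero, Fin.cons_succ]
    constructor
    · intro h u q hq hu
      refine fmem_stable fun q' hq' => ?_
      obtain ⟨r, hr, b, -, he⟩ := h q' (hq'.trans hq)
      refine ⟨r, hr, ?_⟩
      have h1 := fmem_congr_right he (fmem_mono (hr.trans hq') hu)
      intro s hs
      obtain ⟨t, ht, i, hi, he'⟩ := h1 s hs
      exact ⟨t, ht, i, b.2.2 i hi, he'⟩
    · intro h q hq
      have hF := fmem_sepN (Fml.mem 0 (Fin.succ 0)) (Fin.cons z Fin.elim0) x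
      refine ⟨q, le_rfl, ⟨(sepN (Fml.mem 0 (Fin.succ 0)) (Fin.cons z Fin.elim0) x).cd,
        hsp_sepN h𝓕 (Fml.mem 0 (Fin.succ 0)) (Fin.cons z Fin.elim0) x, fun i => inf_le_left⟩,
        trivial, ?_⟩
      change feq z.1 (sepN (Fml.mem 0 (Fin.succ 0)) (Fin.cons z Fin.elim0) x) q
      rw [feq_iff']
      constructor
      · intro i r hr hi
        have := hF (hch z i) r
        refine this.2 ⟨h (hch z i) r (hr.trans hq) (fmem_ch z.1 i hi), fmem_ch z.1 i hi⟩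
      · intro i r hr hi
        exact hi.2
  refine ⟨⟨_, hsp_of_formula h𝓕 ?_ _ _ key⟩, key⟩
  rintro ⟨b, hb⟩
  exact hb.1

open Classical in
/-- witnesses -/
noncomputable def witN {n : ℕ} (φ : Fml (n + 1)) (v : Fin n → HS P 𝓕) (p : P) : HS P 𝓕 :=
  if h : ∃ x, Forces 𝓕 φ (Fin.cons x v) p then h.choose else emptyN

lemma forces_witN {n : ℕ} (φ : Fml (n + 1)) (v : Fin n → HS P 𝓕) (p : P)
    (h : ∃ x, Forces 𝓕 φ (Fin.cons x v) p) : Forces 𝓕 φ (Fin.cons (witN φ v p) v) p := by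
  rw [witN, dif_pos h]; exact h.choose_spec

lemma exists_collN (h𝓕 : Normal 𝓕) {n : ℕ} (φ : Fml (n + 2)) (v : Fin n → HS P 𝓕) (x : HS P 𝓕) :
    ∃ c : HS P 𝓕, ∀ (z : HS P 𝓕) (p : P), fmem z.1 x.1 p →
      Forces 𝓕 (ex φ) (Fin.cons z v) p →
      ∀ q ≤ p, ∃ r ≤ q, ∃ b : HS P 𝓕, fmem b.1 c.1 r ∧ Forces 𝓕 φ (Fin.cons b (Fin.cons z v)) r := by
  classical
  set c : Name P := mk (x.1.ix × P × G)
    (fun a => a.2.2 • (witN φ (Fin.cons (hch x a.1) v) a.2.1).1) (fun _ => ⊤) with hc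
  have hHS : HSp 𝓕 c := by
    refine HSp.intro (fun a => (Subtype.property _ : HSp 𝓕 (Subtype.val _)).smul h𝓕 _)
      (Filter.Eventually.of_forall fun g p => ?_)
    rw [feq_iff']
    constructor
    · intro a q _ _
      have h1 := fmem_ch c (a.1, a.2.1, g * a.2.2) (p := q) trivial
      have h2 : c.ch (a.1, a.2.1, g * a.2.2) = (g • c).ch a := mul_smul _ _ _
      rw [h2] at h1
      exact h1
    · intro a q _ _
      have h1 := fmem_ch (g • c) (a.1, a.2.1, g⁻¹ * a.2.2) (p := q) trivial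
      have h2 : (g • c).ch (a.1, a.2.1, g⁻¹ * a.2.2) = c.ch a := by
        change g • ((g⁻¹ * a.2.2) • (witN φ (Fin.cons (hch x a.1) v) a.2.1).1) =
          a.2.2 • (witN φ (Fin.cons (hch x a.1) v) a.2.1).1
        rw [mul_smul, smul_inv_smul]
      rw [h2] at h1
      exact h1
  refine ⟨⟨c, hHS⟩, fun z p hz hex q hq => ?_⟩
  obtain ⟨r, hr, i, hi, he⟩ := hz q hq
  rw [forces_ex] at hex
  obtain ⟨s, hs, b, hb⟩ := hex r (hr.trans hq)
  have hcg : ∀ b : HS P 𝓕, Forces 𝓕 φ (Fin.cons b (Fin.cons z v)) s ↔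
      Forces 𝓕 φ (Fin.cons b (Fin.cons (hch x i) v)) s := by
    intro b
    refine forces_congr φ fun j => ?_
    refine Fin.cases ?_ (fun j => ?_) j
    · exact feq_refl _ _
    · refine Fin.cases ?_ (fun j => ?_) j
      · exact feq_mono hs he
      · exact feq_refl _ _
  have hw := forces_witN φ (Fin.cons (hch x i) v) s ⟨b, (hcg b).1 hb⟩
  refine ⟨s, hs.trans hr, witN φ (Fin.cons (hch x i) v) s, ?_, (hcg _).2 hw⟩
  have h1 := fmem_ch c (i, s, 1) (p := s) trivial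
  have h2 : c.ch (i, s, 1) = (witN φ (Fin.cons (hch x i) v) s).1 := one_smul _ _
  rw [h2] at h1
  exact h1

lemma found_aux (x : HS P 𝓕) (p : P)
    (h : ∀ y : HS P 𝓕, ∀ q ≤ p, fmem y.1 x.1 q →
      ∀ r ≤ q, ∃ s ≤ r, ∃ z : HS P 𝓕, fmem z.1 x.1 s ∧ fmem z.1 y.1 s)
    (y : Name P) (hy : HSp 𝓕 y) : ∀ q ≤ p, ¬ fmem y x.1 q := by
  induction y with
  | mk ι A b ih =>
    intro q hq hm
    obtain ⟨s, hs, z, h1, h2⟩ := h ⟨_, hy⟩ q hq hm q le_rfl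
    obtain ⟨t, ht, i, hi, he⟩ := h2 s le_rfl
    exact ih i (hy.1 i) t (ht.trans (hs.trans hq)) (fmem_congr_left he (fmem_mono ht h1))

end MP478558
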