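import Pool.Agent.Lib.MP_478558_lc.Fml

/-!
Elementary facts on numerals, pairs, rational and real numbers in a model of ZF.
-/

namespace MP478558

variable {M : Type} {E : M → M → Prop} (hM : ModelsZF M E)

include hM

lemma not_mem_self (x : M) : ¬ E x x := by
  intro h
  obtain ⟨s, hs⟩ := hM.pairing x x
  obtain ⟨y, hy, hy2⟩ := hM.foundation s ⟨x, (hs x).2 (Or.inl rfl)⟩
  have : y = x := by rcases (hs y).1 hy with h | h <;> exact h
  subst this
  exact hy2 y hy h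

lemma numeral_unique {n : ℕ} {x y : M} (hx : IsNumeral E n x) (hy : IsNumeral E n y) : x = y := by
  induction n generalizing x y with
  | zero => exact hM.extensionality _ _ fun z => iff_of_false (hx z) (hy z)
  | succ n ih =>
    obtain ⟨a, ha, hxa⟩ := hx
    obtain ⟨b, hb, hyb⟩ := hy
    have := ih ha hb
    subst this
    exact hM.extensionality _ _ fun z => (hxa z).trans (hyb z).symm

lemma numeral_mem {m n : ℕ} (h : m < n) {x y : M} (hx : IsNumeral E m x) (hy : IsNumeral E n y) :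
    E x y := by
  induction n generalizing y with
  | zero => exact absurd h (Nat.not_lt_zero _)
  | succ n ih =>
    obtain ⟨b, hb, hyb⟩ := hy
    rw [hyb]
    rcases Nat.lt_succ_iff_lt_or_eq.1 h with h | rfl
    · exact Or.inl (ih h hb)
    · exact Or.inr (numeral_unique hM hx hb)

lemma numeral_inj {m n : ℕ} {x : M} (hx : IsNumeral E m x) (hy : IsNumeral E n x) : m = n := by
  rcases lt_trichotomy m n with h | h | h
  · exact absurd (numeral_mem hM h hx hy) (not_mem_self hM x)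
  · exact h
  · exact absurd (numeral_mem hM h hy hx) (not_mem_self hM x)

lemma pair_unique {p q a b : M} (hp : IsPair E p a b) (hq : IsPair E q a b) : p = q :=
  hM.extensionality _ _ fun z => (hp z).trans (hq z).symm

lemma pair_inj {p a b c d : M} (h1 : IsPair E p a b) (h2 : IsPair E p c d) : a = c ∧ b = d := by
  obtain ⟨s, hs⟩ := hM.pairing a a
  obtain ⟨t, ht⟩ := hM.pairing a b
  obtain ⟨t', ht'⟩ := hM.pairing c d
  simp only [or_self] at hs
  have hsp : E s p := (h1 s).2 (Or.inl hs)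
  have htp : E t p := (h1 t).2 (Or.inr ht)
  have htp' : E t' p := (h2 t').2 (Or.inr ht')
  have hac : a = c := by
    rcases (h2 s).1 hsp with h | h
    · exact ((hs c).1 ((h c).2 rfl)).symm
    · exact ((hs c).1 ((h c).2 (Or.inl rfl))).symm
  subst hac
  refine ⟨rfl, ?_⟩
  have hb : b = a ∨ b = d := by
    rcases (h2 t).1 htp with h | h
    · exact Or.inl ((h b).1 ((ht b).2 (Or.inr rfl)))
    · exact (h b).1 ((ht b).2 (Or.inr rfl))
  have hd : d = a ∨ d = b := by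
    rcases (h1 t').1 htp' with h | h
    · exact Or.inl ((h d).1 ((ht' d).2 (Or.inr rfl)))
    · exact (h d).1 ((ht' d).2 (Or.inr rfl))
  rcases hb with rfl | rfl
  · rcases hd with rfl | rfl <;> rfl
  · rfl

lemma rat_unique {q : ℚ} {x y : M} (hx : IsRat E q x) (hy : IsRat E q y) : x = y := by
  obtain ⟨a, b, c, d, ha, hb, hc, hd, hx⟩ := hx
  obtain ⟨a', b', c', d', ha', hb', hc', hd', hy⟩ := hy
  have h1 := numeral_unique hM ha ha'
  have h2 := numeral_unique hM hb hb'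
  have h3 := numeral_unique hM hc hc'
  subst h1 h2 h3
  have h4 := pair_unique hM hd hd'
  subst h4
  exact pair_unique hM hx hy

lemma rat_inj {q q' : ℚ} {x : M} (hx : IsRat E q x) (hy : IsRat E q' x) : q = q' := by
  obtain ⟨a, b, c, d, ha, hb, hc, hd, hx⟩ := hx
  obtain ⟨a', b', c', d', ha', hb', hc', hd', hy⟩ := hy
  obtain ⟨h1, h4⟩ := pair_inj hM hx hy
  subst h1 h4
  obtain ⟨h2, h3⟩ := pair_inj hM hd hd'
  subst h2 h3
  have e1 := numeral_inj hM ha ha'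
  have e2 := numeral_inj hM hb hb'
  have e3 := numeral_inj hM hc hc'
  exact Rat.ext (by omega) e3

lemma mem_real {r : ℝ} {x z : M} (hx : IsReal E r x) {q : ℚ} (hz : IsRat E q z) :
    E z x ↔ (q : ℝ) < r := by
  rw [hx z]
  constructor
  · rintro ⟨q', h1, h2⟩
    rwa [rat_inj hM hz h2]
  · exact fun h => ⟨q, h, hz⟩

lemma real_unique {r : ℝ} {x y : M} (hx : IsReal E r x) (hy : IsReal E r y) : x = y :=
  hM.extensionality _ _ fun z => (hx z).trans (hy z).symm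

lemma real_inj (hrat : ∀ q : ℚ, ∃ z, IsRat E q z) {r s : ℝ} {x : M} (hx : IsReal E r x)
    (hy : IsReal E s x) : r = s := by
  by_contra hne
  rcases lt_or_gt_of_ne hne with h | h
  · obtain ⟨q, h1, h2⟩ := exists_rat_btwn h
    obtain ⟨z, hz⟩ := hrat q
    have := (mem_real hM hx hz).1 ((mem_real hM hy hz).2 h2)
    linarith
  · obtain ⟨q, h1, h2⟩ := exists_rat_btwn h
    obtain ⟨z, hz⟩ := hrat q
    have := (mem_real hM hy hz).1 ((mem_real hM hx hz).2 h2)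
    linarith

omit hM in
lemma exists_lt_bound (n : ℕ) (f : Fin n → ℚ) (c : ℚ) (h : ∀ i, f i < c) :
    ∃ Q < c, ∀ i, f i ≤ Q := by
  induction n with
  | zero => exact ⟨c - 1, by linarith, fun i => i.elim0⟩
  | succ n ih =>
    obtain ⟨Q, hQ, hQ2⟩ := ih (fun i => f i.castSucc) (fun i => h _)
    refine ⟨max Q (f (Fin.last n)), max_lt hQ (h _), fun i => ?_⟩
    refine Fin.lastCases ?_ (fun i => ?_) i
    · exact le_max_right _ _
    · exact (hQ2 i).trans (le_max_left _ _)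

omit hM in
lemma exists_gt_bound (n : ℕ) (f : Fin n → ℚ) (c : ℚ) (h : ∀ i, c < f i) :
    ∃ Q, c < Q ∧ ∀ i, Q ≤ f i := by
  obtain ⟨Q, hQ, hQ2⟩ := exists_lt_bound n (fun i => - f i) (-c) fun i => neg_lt_neg (h i)
  exact ⟨-Q, by linarith, fun i => by linarith [hQ2 i]⟩

/-- a compact set of irrational numbers is nowhere dense -/
lemma compact_nowhere_dense (hrat : ∀ q : ℚ, ∃ z, IsRat E q z)
    (hlow : ∀ q₀ : ℚ, ∃ L, ∀ z, E z L ↔ ∃ q : ℚ, q < q₀ ∧ IsRat E q z)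
    (hhigh : ∀ q₀ : ℚ, ∃ H, ∀ z, E z H ↔ ∃ q : ℚ, q₀ < q ∧ IsRat E q z)
    {K : M} (hK : IsCompactIrr E K) (a b : ℚ) (hab : a < b) :
    ∃ a' b' : ℚ, a ≤ a' ∧ a' < b' ∧ b' ≤ b ∧
      ∀ x, E x K → ∀ y z, IsRat E a' y → IsRat E b' z → E y x → E z x := by
  obtain ⟨hKi, hK⟩ := hK
  set q₀ : ℚ := (a + b) / 2 with hq₀
  obtain ⟨L, hL⟩ := hlow q₀
  obtain ⟨H, hH⟩ := hhigh q₀
  obtain ⟨Pw, hPw⟩ := hM.powerSet K
  obtain ⟨𝒰, h𝒰⟩ := hM.separation 3
    (Fml.ex (Fml.conj (.mem 0 3) (Fml.ex (Fml.conj (.mem 0 5)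
      (.all (.imp (.mem 0 4) (Fml.equ (.mem 0 3) (.imp (.mem 2 0) (.mem 1 0)))))))))
    ![K, L, H] Pw
  have hU : ∀ U, E U 𝒰 ↔ (∀ z, E z U → E z K) ∧ ∃ q1, E q1 L ∧ ∃ q2, E q2 H ∧
      ∀ x, E x K → (E x U ↔ (E q1 x → E q2 x)) := by
    intro U
    rw [h𝒰 U, hPw U]
    simp only [sat_ex, sat_conj, sat_all, sat_imp, sat_equ, sat_mem]
    exact Iff.rfl
  obtain ⟨n, u, hu1, hu2⟩ := hK 𝒰 (by
    intro U hUU
    obtain ⟨h1, q1, hq1, q2, hq2, h2⟩ := (hU U).1 hUU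
    refine ⟨h1, fun x hx => ?_⟩
    have hxK := h1 x hx
    obtain ⟨r, hirr, hr⟩ := hKi x hxK
    obtain ⟨c1, hc1, hc1'⟩ := (hL q1).1 hq1
    obtain ⟨c2, hc2, hc2'⟩ := (hH q2).1 hq2
    have h3 := (h2 x hxK).1 hx
    rw [mem_real hM hr hc1', mem_real hM hr hc2'] at h3
    by_cases h4 : (c1 : ℝ) < r
    · have h5 := h3 h4
      obtain ⟨d, hd⟩ := exists_rat_gt r
      refine ⟨c2, d, ⟨r, hr, h5, hd⟩, fun y hyK hy => ?_⟩
      rw [h2 y hyK]
      intro _
      obtain ⟨s, hs, h6, _⟩ := hy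
      exact (mem_real hM hs hc2').2 h6
    · have h5 : r < c1 := lt_of_le_of_ne (not_lt.1 h4) (fun h => hirr ⟨c1, h.symm⟩)
      obtain ⟨d, hd⟩ := exists_rat_lt r
      refine ⟨d, c1, ⟨r, hr, hd, h5⟩, fun y hyK hy => ?_⟩
      rw [h2 y hyK]
      intro h7
      obtain ⟨s, hs, _, h6⟩ := hy
      have := (mem_real hM hs hc1').1 h7
      linarith) (by
    intro x hxK
    obtain ⟨r, hirr, hr⟩ := hKi x hxK
    have key : ∀ c1 c2 : ℚ, c1 < q₀ → q₀ < c2 → ((c1 : ℝ) < r → (c2 : ℝ) < r) →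
        ∃ U, E U 𝒰 ∧ E x U := by
      intro c1 c2 h1 h2 h3
      obtain ⟨z1, hz1⟩ := hrat c1
      obtain ⟨z2, hz2⟩ := hrat c2
      obtain ⟨U, hUU⟩ := hM.separation 2 (.imp (.mem 1 0) (.mem 2 0)) ![z1, z2] K
      have hUU' : ∀ z, E z U ↔ E z K ∧ (E z1 z → E z2 z) := by
        intro z
        rw [hUU z]
        exact Iff.rfl
      refine ⟨U, (hU U).2 ⟨fun z hz => ((hUU' z).1 hz).1, z1, (hL z1).2 ⟨c1, h1, hz1⟩,
        z2, (hH z2).2 ⟨c2, h2, hz2⟩, fun y hy => ?_⟩, (hUU' x).2 ⟨hxK, ?_⟩⟩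
      · rw [hUU' y, and_iff_right hy]
      · rwa [mem_real hM hr hz1, mem_real hM hr hz2]
    rcases lt_trichotomy r q₀ with h | h | h
    · obtain ⟨c, h1, h2⟩ := exists_rat_btwn h
      refine key c (q₀ + 1) (by exact_mod_cast h2) (by linarith) fun h3 => absurd h3 (not_lt.2 h1.le)
    · exact absurd ⟨q₀, h.symm⟩ hirr
    · obtain ⟨c, h1, h2⟩ := exists_rat_btwn h
      exact key (q₀ - 1) c (by linarith) (by exact_mod_cast h1) fun _ => h2)
  have h5 : ∀ i, ∃ c1 c2 : ℚ, c1 < q₀ ∧ q₀ < c2 ∧ ∀ x, E x K → E x (u i) → ∀ r : ℝ, IsReal E r x →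
      (c1 : ℝ) < r → (c2 : ℝ) < r := by
    intro i
    obtain ⟨_, q1, hq1, q2, hq2, h2⟩ := (hU _).1 (hu1 i)
    obtain ⟨c1, hc1, hc1'⟩ := (hL q1).1 hq1
    obtain ⟨c2, hc2, hc2'⟩ := (hH q2).1 hq2
    refine ⟨c1, c2, hc1, hc2, fun x hxK hx r hr h => ?_⟩
    exact (mem_real hM hr hc2').1 ((h2 x hxK).1 hx ((mem_real hM hr hc1').2 h))
  choose c1 c2 hc1 hc2 hc using h5
  obtain ⟨Q1, hQ1, hQ1'⟩ := exists_lt_bound n c1 q₀ hc1
  obtain ⟨Q2, hQ2, hQ2'⟩ := exists_gt_bound n c2 q₀ hc2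
  refine ⟨max a Q1, min b Q2, le_max_left _ _, ?_, min_le_left _ _, ?_⟩
  · refine max_lt (lt_min hab (by linarith)) (lt_min (by linarith) (by linarith))
  · intro x hxK y z hy hz hyx
    obtain ⟨r, hirr, hr⟩ := hKi x hxK
    rw [mem_real hM hr hy] at hyx
    rw [mem_real hM hr hz]
    obtain ⟨i, hi⟩ := hu2 x hxK
    have h6 : (c1 i : ℝ) < r := by
      refine lt_of_le_of_lt ?_ hyx
      exact_mod_cast (hQ1' i).trans (le_max_right _ _)
    have h7 := hc i x hxK hi r hr h6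
    refine lt_of_le_of_lt ?_ h7
    exact_mod_cast (min_le_right _ _).trans (hQ2' i)

end MP478558
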