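import Pool.Agent.Lib.MP_478558_lc.ModelZF
import Pool.Agent.Lib.MP_478558_lc.Basic

/-!
Cohen's forcing for adding a set of Cohen reals, with permutations of `ℕ`.
-/

namespace MP478558

open Name Fml

/-- conditions: finitely many nontrivial intervals contained in `(0,1)` -/
@[ext]
structure Cond where
  lo : ℕ → ℚ
  hi : ℕ → ℚ
  nonneg : ∀ i, 0 ≤ lo i
  le_one : ∀ i, hi i ≤ 1
  lt : ∀ i, lo i < hi i
  fin : {i | lo i ≠ 0 ∨ hi i ≠ 1}.Finite

namespace Cond

instance : PartialOrder Cond where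
  le p q := ∀ i, q.lo i ≤ p.lo i ∧ p.hi i ≤ q.hi i
  le_refl p i := ⟨le_rfl, le_rfl⟩
  le_trans p q r h1 h2 i := ⟨(h2 i).1.trans (h1 i).1, (h1 i).2.trans (h2 i).2⟩
  le_antisymm p q h1 h2 := by
    ext i
    · exact le_antisymm (h2 i).1 (h1 i).1
    · exact le_antisymm (h1 i).2 (h2 i).2

lemma le_def (p q : Cond) : p ≤ q ↔ ∀ i, q.lo i ≤ p.lo i ∧ p.hi i ≤ q.hi i := Iff.rfl

instance : Nonempty Cond := ⟨⟨fun _ => 0, fun _ => 1, fun _ => le_rfl, fun _ => le_rfl,
  fun _ => one_pos, by simp⟩⟩

instance : Countable Cond := by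
  have : Function.Injective (fun p : Cond =>
      ((Finsupp.ofSupportFinite p.lo (p.fin.subset fun i hi => Or.inl hi),
        Finsupp.ofSupportFinite (fun i => p.hi i - 1) (p.fin.subset fun i hi =>
          Or.inr (fun h => hi (by simp [h])))) : (ℕ →₀ ℚ) × (ℕ →₀ ℚ))) := by
    intro p q h
    simp only [Prod.mk.injEq] at h
    have h1 := fun i => DFunLike.congr_fun h.1 i
    have h2 := fun i => DFunLike.congr_fun h.2 i
    ext i
    · exact h1 i
    · have : p.hi i - 1 = q.hi i - 1 := h2 i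
      linarith
  exact this.countable

instance : MulAction (Equiv.Perm ℕ) Cond where
  smul g p :=
    { lo := fun i => p.lo (g⁻¹ i)
      hi := fun i => p.hi (g⁻¹ i)
      nonneg := fun _ => p.nonneg _
      le_one := fun _ => p.le_one _
      lt := fun _ => p.lt _
      fin := (p.fin.preimage (f := fun i => g⁻¹ i) (g⁻¹).injective.injOn) }
  one_smul _ := rfl
  mul_smul _ _ _ := rfl

lemma smul_lo (g : Equiv.Perm ℕ) (p : Cond) (i : ℕ) : (g • p).lo i = p.lo (g⁻¹ i) := rfl
lemma smul_hi (g : Equiv.Perm ℕ) (p : Cond) (i : ℕ) : (g • p).hi i = p.hi (g⁻¹ i) := rfl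

instance : OrdAct (Equiv.Perm ℕ) Cond where
  act_le g _ _ h := fun i => h (g⁻¹ i)

/-- common extension of two compatible conditions -/
lemma exists_meet (p q : Cond) (h : ∀ i, max (p.lo i) (q.lo i) < min (p.hi i) (q.hi i)) :
    ∃ r : Cond, r ≤ p ∧ r ≤ q := by
  refine ⟨⟨fun i => max (p.lo i) (q.lo i), fun i => min (p.hi i) (q.hi i),
    fun i => (p.nonneg i).trans (le_max_left _ _), fun i => (min_le_left _ _).trans (p.le_one i),
    h, ?_⟩, fun i => ⟨le_max_left _ _, min_le_left _ _⟩, fun i => ⟨le_max_right _ _, min_le_right _ _⟩⟩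
  refine (p.fin.union q.fin).subset fun i hi => ?_
  by_contra hc
  simp only [Set.mem_union, Set.mem_ofPred_eq, not_or, not_not] at hc hi
  rw [hc.1.1, hc.1.2, hc.2.1, hc.2.2] at hi
  simp at hi

/-- change of one coordinate -/
lemma exists_update (p : Cond) (i : ℕ) (a b : ℚ) (ha : 0 ≤ a) (hb : b ≤ 1) (hab : a < b) :
    ∃ r : Cond, r.lo i = a ∧ r.hi i = b ∧ ∀ j, j ≠ i → r.lo j = p.lo j ∧ r.hi j = p.hi j := by
  classical
  refine ⟨⟨Function.update p.lo i a, Function.update p.hi i b, ?_, ?_, ?_, ?_⟩, by simp, by simp,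
    fun j hj => by simp [hj]⟩
  · intro j
    by_cases h : j = i
    · subst h; simpa using ha
    · simpa [h] using p.nonneg j
  · intro j
    by_cases h : j = i
    · subst h; simpa using hb
    · simpa [h] using p.le_one j
  · intro j
    by_cases h : j = i
    · subst h; simpa using hab
    · simpa [h] using p.lt j
  · refine (p.fin.union (Set.finite_singleton i)).subset fun j hj => ?_
    by_cases h : j = i
    · exact Or.inr h
    · left
      simpa [h] using hj

/-- a condition equal to `p` on `S` and to `q` outside `S` -/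
lemma exists_merge (p q : Cond) (S : Finset ℕ) :
    ∃ r : Cond, (∀ j ∈ S, r.lo j = p.lo j ∧ r.hi j = p.hi j) ∧
      ∀ j, j ∉ S → r.lo j = q.lo j ∧ r.hi j = q.hi j := by
  classical
  refine ⟨⟨fun j => if j ∈ S then p.lo j else q.lo j, fun j => if j ∈ S then p.hi j else q.hi j,
    ?_, ?_, ?_, ?_⟩, fun j hj => by simp [hj], fun j hj => by simp [hj]⟩
  · intro j
    by_cases h : j ∈ S
    · simpa [h] using p.nonneg j
    · simpa [h] using q.nonneg j
  · intro j
    by_cases h : j ∈ S
    · simpa [h] using p.le_one j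
    · simpa [h] using q.le_one j
  · intro j
    by_cases h : j ∈ S
    · simpa [h] using p.lt j
    · simpa [h] using q.lt j
  · refine (p.fin.union q.fin).subset fun j hj => ?_
    by_cases h : j ∈ S
    · left
      simpa [h] using hj
    · right
      simpa [h] using hj

/-- restriction to a set of coordinates -/
lemma exists_restrict (p : Cond) (S : Finset ℕ) :
    ∃ r : Cond, (∀ j ∈ S, r.lo j = p.lo j ∧ r.hi j = p.hi j) ∧
      ∀ j, j ∉ S → r.lo j = 0 ∧ r.hi j = 1 :=
  exists_merge p ⟨fun _ => 0, fun _ => 1, fun _ => le_rfl, fun _ => le_rfl,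
  fun _ => one_pos, by simp⟩ S

lemma exists_bound (p : Cond) : ∃ N, ∀ j, N ≤ j → p.lo j = 0 ∧ p.hi j = 1 := by
  obtain ⟨N, hN⟩ := p.fin.bddAbove
  refine ⟨N + 1, fun j hj => ?_⟩
  by_contra h
  have : j ∈ {i | p.lo i ≠ 0 ∨ p.hi i ≠ 1} := by
    by_cases h1 : p.lo j = 0
    · exact Or.inr fun h2 => h ⟨h1, h2⟩
    · exact Or.inl h1
  have := hN this
  omega

end Cond

/-- the filter of the supports -/
def FF : Filter (Equiv.Perm ℕ) where
  sets := {S | ∃ A : Finset ℕ, ∀ g : Equiv.Perm ℕ, (∀ i ∈ A, g i = i) → g ∈ S}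
  univ_sets := ⟨∅, fun _ _ => trivial⟩
  sets_of_superset := fun ⟨A, hA⟩ hST => ⟨A, fun g hg => hST (hA g hg)⟩
  inter_sets := by
    rintro S T ⟨A, hA⟩ ⟨B, hB⟩
    exact ⟨A ∪ B, fun g hg => ⟨hA g fun i hi => hg i (Finset.mem_union_left _ hi),
      hB g fun i hi => hg i (Finset.mem_union_right _ hi)⟩⟩

lemma mem_FF (S : Set (Equiv.Perm ℕ)) :
    S ∈ FF ↔ ∃ A : Finset ℕ, ∀ g : Equiv.Perm ℕ, (∀ i ∈ A, g i = i) → g ∈ S := Iff.rfl

lemma normal_FF : Normal FF := by
  intro g S hS
  obtain ⟨A, hA⟩ := (mem_FF S).1 hS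
  refine (mem_FF _).2 ⟨A.map g.toEmbedding, fun k hk => hA _ fun i hi => ?_⟩
  have : k (g i) = g i := hk (g i) (Finset.mem_map_of_mem _ hi)
  simp [Equiv.Perm.mul_apply, this]

section names

variable {P : Type} [Preorder P]

/-- unordered pair -/
def upN (x y : Name P) : Name P := mk Bool (fun t => cond t x y) fun _ => ⊤

/-- ordered pair -/
def opN (x y : Name P) : Name P := upN (upN x x) (upN x y)

/-- rational numbers -/
def ratN (q : ℚ) : Name P :=
  opN (natN q.num.toNat) (opN (natN (-q.num).toNat) (natN q.den))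

/-- set of rational numbers -/
def setN (S : Set ℚ) : Name P := mk S (fun q => ratN q.1) fun _ => ⊤

end names

/-- the Cohen real `i` -/
def cN (i : ℕ) : Name Cond :=
  mk ℚ ratN fun q => ⟨{p | q < p.lo i}, fun _ _ h h1 => lt_of_lt_of_le h1 (h i).1⟩

/-- the set of the Cohen reals -/
def DN : Name Cond := mk ℕ cN fun _ => ⊤

/-- a name whose transitive closure contains all names that we need -/
def WN : Name Cond :=
  mk (Option (Option (Option (ℚ ⊕ ℚ))))
    (fun o => o.elim omegaN fun o => o.elim DN fun o =>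
      o.elim (setN {q : ℚ | (q : ℝ) < Real.sqrt 2 - 1}) fun s =>
        s.elim (fun q => setN (Set.Iio q)) (fun q => setN (Set.Ioi q))) fun _ => ⊤

section

variable {P G : Type} [Preorder P] [Group G] [OrdAct G P]

lemma actLow_top (g : G) : actLow g (⊤ : LowerSet P) = ⊤ := rfl

lemma smul_empN (g : G) : g • (empN : Name P) = empN := by
  rw [empN, smul_mk]
  congr 1 <;> funext i <;> exact i.elim

lemma smul_sucN (g : G) (x : Name P) : g • sucN x = sucN (g • x) := by
  cases x with
  | mk ι A b =>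
    rw [sucN, sucN, smul_mk, smul_mk]
    simp only [ix_mk, ch_mk, cd_mk, mk.injEq, heq_eq_eq, true_and]
    constructor
    · funext o
      cases o <;> rfl
    · funext o
      cases o <;> rfl

lemma smul_natN (g : G) (n : ℕ) : g • (natN n : Name P) = natN n := by
  induction n with
  | zero => exact smul_empN g
  | succ n ih => rw [natN, smul_sucN, ih]

lemma smul_omegaN (g : G) : g • (omegaN : Name P) = omegaN := by
  rw [omegaN, smul_mk]
  simp only [smul_natN, actLow_top]

lemma smul_upN (g : G) (x y : Name P) : g • upN x y = upN (g • x) (g • y) := by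
  rw [upN, upN, smul_mk]
  simp only [actLow_top, mk.injEq, heq_eq_eq, true_and, and_true]
  funext t
  cases t <;> rfl

lemma smul_opN (g : G) (x y : Name P) : g • opN x y = opN (g • x) (g • y) := by
  simp only [opN, smul_upN]

lemma smul_ratN (g : G) (q : ℚ) : g • (ratN q : Name P) = ratN q := by
  simp only [ratN, smul_opN, smul_natN]

lemma smul_setN (g : G) (S : Set ℚ) : g • (setN S : Name P) = setN S := by
  rw [setN, smul_mk]
  simp only [smul_ratN, actLow_top]

variable {𝓕 : Filter G}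

lemma sym_of_fixed {x : Name P} (h : ∀ g : G, g • x = x) : Sym 𝓕 x :=
  Filter.Eventually.of_forall fun g p => by rw [h g]; exact feq_refl _ _

lemma hsp_empN : HSp 𝓕 (empN : Name P) := HSp.intro (fun i => i.elim) (sym_of_fixed smul_empN)

lemma hsp_natN (n : ℕ) : HSp 𝓕 (natN n : Name P) := by
  induction n with
  | zero => exact hsp_empN
  | succ n ih =>
    refine HSp.intro (fun i => ?_) (sym_of_fixed fun g => smul_natN g (n + 1))
    change Option (natN n).ix at i
    cases i with
    | none => exact ih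
    | some j => exact ih.ch j

lemma hsp_omegaN : HSp 𝓕 (omegaN : Name P) :=
  HSp.intro (fun i => hsp_natN i) (sym_of_fixed smul_omegaN)

lemma hsp_upN {x y : Name P} (hx : HSp 𝓕 x) (hy : HSp 𝓕 y) (hx' : ∀ g : G, g • x = x)
    (hy' : ∀ g : G, g • y = y) : HSp 𝓕 (upN x y) := by
  refine HSp.intro (fun i => ?_) (sym_of_fixed fun g => by rw [smul_upN, hx', hy'])
  change Bool at i
  cases i
  · exact hy
  · exact hx

lemma hsp_opN {x y : Name P} (hx : HSp 𝓕 x) (hy : HSp 𝓕 y) (hx' : ∀ g : G, g • x = x)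
    (hy' : ∀ g : G, g • y = y) : HSp 𝓕 (opN x y) :=
  hsp_upN (hsp_upN hx hx hx' hx') (hsp_upN hx hy hx' hy') (fun g => by rw [smul_upN, hx'])
    (fun g => by rw [smul_upN, hx', hy'])

lemma hsp_ratN (q : ℚ) : HSp 𝓕 (ratN q : Name P) :=
  hsp_opN (hsp_natN _) (hsp_opN (hsp_natN _) (hsp_natN _) (fun g => smul_natN g _)
    (fun g => smul_natN g _)) (fun g => smul_natN g _)
    (fun g => by rw [smul_opN, smul_natN, smul_natN])

lemma hsp_setN (S : Set ℚ) : HSp 𝓕 (setN S : Name P) :=
  HSp.intro (fun _ => hsp_ratN _) (sym_of_fixed fun g => smul_setN g S)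

end

lemma smul_cN (g : Equiv.Perm ℕ) (i : ℕ) : g • cN i = cN (g i) := by
  rw [cN, cN, smul_mk]
  simp only [smul_ratN, mk.injEq, heq_eq_eq, true_and]
  funext q
  apply LowerSet.ext
  ext p
  change q < (g⁻¹ • p).lo i ↔ q < p.lo (g i)
  rw [Cond.smul_lo, inv_inv]

lemma smul_cN_inv (g : Equiv.Perm ℕ) (i : ℕ) : g • cN (g⁻¹ i) = cN i := by
  rw [smul_cN]
  congr 1
  exact Equiv.apply_symm_apply g i

lemma hsp_cN (i : ℕ) : HSp FF (cN i) := by
  refine HSp.intro (fun q => hsp_ratN _) ?_
  refine (mem_FF _).2 ⟨{i}, fun g hg p => ?_⟩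
  rw [smul_cN, hg i (Finset.mem_singleton_self i)]
  exact feq_refl _ _

lemma feq_smul_DN (g : Equiv.Perm ℕ) (p : Cond) : feq (g • DN) DN p := by
  rw [feq_iff']
  constructor
  · intro i q _ _
    have h1 := fmem_ch DN (g i) (p := q) trivial
    have h2 : DN.ch (g i) = (g • DN).ch i := (smul_cN g i).symm
    rw [h2] at h1
    exact h1
  · intro i q _ _
    have h1 := fmem_ch (g • DN) (g⁻¹ i) (p := q) trivial
    have h2 : (g • DN).ch (g⁻¹ i) = DN.ch i := smul_cN_inv g i
    rw [h2] at h1
    exact h1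

lemma hsp_DN : HSp FF DN :=
  HSp.intro (fun i => hsp_cN i) (Filter.Eventually.of_forall feq_smul_DN)

lemma hsp_WN : HSp FF WN := by
  refine HSp.intro (fun i => ?_) (Filter.Eventually.of_forall fun g p => ?_)
  · change Option (Option (Option (ℚ ⊕ ℚ))) at i
    rcases i with _ | _ | _ | s | s
    · exact hsp_omegaN
    · exact hsp_DN
    · exact hsp_setN _
    · exact hsp_setN _
    · exact hsp_setN _
  · have key : ∀ (i : WN.ix) (q : Cond), feq (g • WN.ch i) (WN.ch i) q := by
      intro i q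
      change Option (Option (Option (ℚ ⊕ ℚ))) at i
      rcases i with _ | _ | _ | s | s
      · change feq (g • (omegaN : Name Cond)) omegaN q
        rw [smul_omegaN]; exact feq_refl _ _
      · exact feq_smul_DN g q
      · change feq (g • (setN _ : Name Cond)) (setN _) q
        rw [smul_setN]; exact feq_refl _ _
      · change feq (g • (setN _ : Name Cond)) (setN _) q
        rw [smul_setN]; exact feq_refl _ _
      · change feq (g • (setN _ : Name Cond)) (setN _) q
        rw [smul_setN]; exact feq_refl _ _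
    rw [feq_iff']
    constructor
    · intro i q _ _
      exact fmem_congr_left (feq_symm (key i q)) (fmem_ch WN i (p := q) trivial)
    · intro i q _ _
      exact fmem_congr_left (key i q) (fmem_ch (g • WN) i (p := q) trivial)

section

variable {P : Type} [Preorder P]

lemma HC.ch' {x : Name P} (h : HC x) (i : x.ix) : HC (x.ch i) := by
  cases x; exact h.2 i

lemma HC.countable {x : Name P} (h : HC x) : Countable x.ix := by
  cases x; exact h.1

lemma hc_natN (n : ℕ) : HC (natN n : Name P) := by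
  induction n with
  | zero => exact ⟨inferInstanceAs (Countable Empty), fun i => i.elim⟩
  | succ n ih =>
    have := ih.countable
    refine ⟨inferInstance, fun i => ?_⟩
    cases i with
    | none => exact ih
    | some j => exact ih.ch' j

lemma hc_upN {x y : Name P} (hx : HC x) (hy : HC y) : HC (upN x y) := by
  refine ⟨inferInstance, fun i => ?_⟩
  cases i
  · exact hy
  · exact hx

lemma hc_ratN (q : ℚ) : HC (ratN q : Name P) :=
  hc_upN (hc_upN (hc_natN _) (hc_natN _)) (hc_upN (hc_natN _)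
    (hc_upN (hc_upN (hc_natN _) (hc_natN _)) (hc_upN (hc_natN _) (hc_natN _))))

lemma hc_setN (S : Set ℚ) : HC (setN S : Name P) := ⟨inferInstance, fun _ => hc_ratN _⟩

end

lemma hc_WN : HC WN := by
  refine ⟨inferInstance, fun i => ?_⟩
  rcases i with _ | _ | _ | s | s
  · exact ⟨inferInstance, fun i => hc_natN _⟩
  · exact ⟨inferInstance, fun i => ⟨inferInstance, fun q => hc_ratN _⟩⟩
  · exact hc_setN _
  · exact hc_setN _
  · exact hc_setN _

lemma exists_base : ∃ base : ℕ → HS Cond FF, ∀ w, Bs base w ↔ InTC WN w := by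
  obtain ⟨f, hf⟩ := (countable_tc WN hc_WN).exists_eq_range ⟨WN, InTC.self⟩
  have hf' : ∀ w, InTC WN w ↔ ∃ k, f k = w := fun w => by
    have : w ∈ {w | InTC WN w} ↔ w ∈ Set.range f := by rw [hf]
    exact this
  refine ⟨fun k => ⟨f k, InTC.hsp hsp_WN ((hf' _).2 ⟨k, rfl⟩)⟩, fun w => ?_⟩
  rw [hf' w]
  exact Iff.rfl

end MP478558
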