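import Mathlib

/-!
Definitions for problem MP_478558_lc: first-order formulas of the language of set theory,
models of ZF, and the statement that the space of irrational numbers of an `ω`-model of ZF
is a `k`-space.
-/

namespace MP478558

/-- Formulas of the language of set theory (one binary relation `∈`, and equality) with free
variables indexed by `Fin n`. In `all φ` the quantified variable is the variable `0` of `φ`,
the other variables being shifted by one. -/
inductive Fml : ℕ → Type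
  | mem {n : ℕ} (i j : Fin n) : Fml n
  | eq {n : ℕ} (i j : Fin n) : Fml n
  | bot {n : ℕ} : Fml n
  | imp {n : ℕ} (φ ψ : Fml n) : Fml n
  | all {n : ℕ} (φ : Fml (n + 1)) : Fml n

/-- Satisfaction in the structure `(M, E)`. -/
def Sat {M : Type} (E : M → M → Prop) : {n : ℕ} → Fml n → (Fin n → M) → Prop
  | _, .mem i j, v => E (v i) (v j)
  | _, .eq i j, v => v i = v j
  | _, .bot, _ => False
  | _, .imp φ ψ, v => Sat E φ v → Sat E ψ v
  | _, .all φ, v => ∀ x : M, Sat E φ (Fin.cons x v)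

/-- `(M, E)` is a model of Zermelo–Fraenkel set theory ZF. -/
structure ModelsZF (M : Type) (E : M → M → Prop) : Prop where
  extensionality : ∀ x y, (∀ z, E z x ↔ E z y) → x = y
  foundation : ∀ x, (∃ y, E y x) → ∃ y, E y x ∧ ∀ z, E z x → ¬ E z y
  pairing : ∀ x y, ∃ z, ∀ w, E w z ↔ w = x ∨ w = y
  union : ∀ x, ∃ u, ∀ w, E w u ↔ ∃ y, E y x ∧ E w y
  powerSet : ∀ x, ∃ p, ∀ w, E w p ↔ ∀ z, E z w → E z x
  infinity : ∃ x, (∃ e, E e x ∧ ∀ z, ¬ E z e) ∧
    ∀ y, E y x → ∃ s, E s x ∧ ∀ z, E z s ↔ E z y ∨ z = y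
  separation : ∀ (n : ℕ) (φ : Fml (n + 1)) (v : Fin n → M) (x : M),
    ∃ y, ∀ z, E z y ↔ E z x ∧ Sat E φ (Fin.cons z v)
  replacement : ∀ (n : ℕ) (φ : Fml (n + 2)) (v : Fin n → M) (x : M),
    (∀ a, E a x → ∃! b, Sat E φ (Fin.cons b (Fin.cons a v))) →
      ∃ y, ∀ b, E b y ↔ ∃ a, E a x ∧ Sat E φ (Fin.cons b (Fin.cons a v))

section

variable {M : Type} (E : M → M → Prop)

/-- `x` is the von Neumann numeral `n` in `(M, E)`. -/
def IsNumeral : ℕ → M → Prop
  | 0, x => ∀ z, ¬ E z x
  | n + 1, x => ∃ y, IsNumeral n y ∧ ∀ z, E z x ↔ E z y ∨ z = y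

/-- `(M, E)` is an `ω`-model: it has a set whose elements are exactly the numerals
`0, 1, 2, …`. -/
def IsOmegaModel : Prop := ∃ w, ∀ z, E z w ↔ ∃ n, IsNumeral E n z

/-- `p` is the ordered pair `(a, b) = {{a}, {a, b}}` in `(M, E)`. -/
def IsPair (p a b : M) : Prop :=
  ∀ z, E z p ↔ (∀ w, E w z ↔ w = a) ∨ (∀ w, E w z ↔ w = a ∨ w = b)

/-- `x` is the rational number `q` in `(M, E)`: it is the triple `(a, (b, c))` of numerals where
`q = (a - b) / c` in lowest terms, `c ≥ 1`, and `a = 0` or `b = 0`. -/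
def IsRat (q : ℚ) (x : M) : Prop :=
  ∃ a b c bc, IsNumeral E q.num.toNat a ∧ IsNumeral E (-q.num).toNat b ∧ IsNumeral E q.den c ∧
    IsPair E bc b c ∧ IsPair E x a bc

/-- `x` is the real number `r` in `(M, E)`, as a Dedekind cut: the set of the rational numbers
less than `r`. The real numbers of an `ω`-model are the elements `x` of the model such that
`IsReal E r x` for some `r : ℝ`. -/
def IsReal (r : ℝ) (x : M) : Prop := ∀ z, E z x ↔ ∃ q : ℚ, (q : ℝ) < r ∧ IsRat E q z

/-- `x` is a point of the space `ℙ` of irrational numbers of `(M, E)`. -/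
def IsIrr (x : M) : Prop := ∃ r : ℝ, Irrational r ∧ IsReal E r x

/-- The real number `x` of `(M, E)` lies in the open interval with rational end points
`a`, `b`. -/
def InInterval (a b : ℚ) (x : M) : Prop := ∃ r : ℝ, IsReal E r x ∧ (a : ℝ) < r ∧ r < b

/-- `A` is (in `(M, E)`) a set of irrational numbers. -/
def IsSetOfIrr (A : M) : Prop := ∀ x, E x A → IsIrr E x

/-- The set of irrational numbers `A` is closed in `ℙ`: every point of `ℙ` outside `A` has an
interval neighbourhood that does not meet `A`. -/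
def IsClosedInIrr (A : M) : Prop :=
  ∀ y, IsIrr E y → ¬ E y A → ∃ a b : ℚ, InInterval E a b y ∧ ∀ z, E z A → ¬ InInterval E a b z

/-- `U` is an open subset of the subspace `K` of `ℙ`. -/
def IsOpenIn (K U : M) : Prop :=
  (∀ x, E x U → E x K) ∧
    ∀ x, E x U → ∃ a b : ℚ, InInterval E a b x ∧ ∀ y, E y K → InInterval E a b y → E y U

/-- `K` is a compact subspace of `ℙ` in `(M, E)`: every family `𝒰` in `M` of open subsets
of `K` that covers `K` has a finite subfamily covering `K`. -/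
def IsCompactIrr (K : M) : Prop :=
  IsSetOfIrr E K ∧ ∀ 𝒰, (∀ U, E U 𝒰 → IsOpenIn E K U) → (∀ x, E x K → ∃ U, E U 𝒰 ∧ E x U) →
    ∃ (n : ℕ) (u : Fin n → M), (∀ i, E (u i) 𝒰) ∧ ∀ x, E x K → ∃ i, E x (u i)

/-- `A ∩ K` is closed in `K`. -/
def IsClosedIn (K A : M) : Prop :=
  ∀ y, E y K → ¬ E y A →
    ∃ a b : ℚ, InInterval E a b y ∧ ∀ z, E z A → E z K → ¬ InInterval E a b z

/-- The space `ℙ` of irrational numbers of `(M, E)` is a `k`-space. -/
def IrrationalsKSpace : Prop :=
  ∀ A, IsSetOfIrr E A → (∀ K, IsCompactIrr E K → IsClosedIn E K A) → IsClosedInIrr E A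

end

end MP478558
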