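import Pool.Agent.Lib.MP_478558_lc.Homog

/-!
In Cohen's symmetric model the space of irrational numbers is not a `k`-space.
-/

namespace MP478558

open Name Fml

section pairs

variable {P G : Type} [Preorder P] [Group G] [OrdAct G P] {𝓕 : Filter G}
  {base : ℕ → HS P 𝓕} {U : Set P} (hU : IsFilt U)
  (hB : ∀ w, Bs base w → ∀ i, Bs base (w.ch i))
  (hD : ∀ S ∈ stdSets base, Dec U S)

include hB hD

lemma mem_nm_up {x y : Name P} (h : Bs base (upN x y)) (z : Mod base hU) :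
    MemM base hU z (nm base hU (upN x y)) ↔ z = nm base hU x ∨ z = nm base hU y := by
  rw [mem_nm_top hU hB hD h (fun _ => rfl)]
  constructor
  · rintro ⟨i, hi⟩
    change Bool at i
    cases i
    · exact Or.inr hi
    · exact Or.inl hi
  · rintro (h | h)
    · exact ⟨true, h⟩
    · exact ⟨false, h⟩

lemma isPair_nm {x y : Name P} (h : Bs base (opN x y)) :
    IsPair (MemM base hU) (nm base hU (opN x y)) (nm base hU x) (nm base hU y) := by
  have h1 : Bs base (upN x x) := hB _ h true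
  have h2 : Bs base (upN x y) := hB _ h false
  have e1 := mem_nm_up hU hB hD h1
  have e2 := mem_nm_up hU hB hD h2
  intro z
  rw [opN, mem_nm_up hU hB hD h]
  refine or_congr ⟨?_, fun h3 => ?_⟩ ⟨?_, fun h3 => ?_⟩
  · rintro rfl
    intro w
    rw [e1 w, or_self]
  · refine model_ext hU hD _ _ fun w => ?_
    rw [h3 w, e1 w, or_self]
  · rintro rfl
    exact e2
  · refine model_ext hU hD _ _ fun w => ?_
    rw [h3 w, e2 w]

variable (hω : Bs base (omegaN : Name P))

include hω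

lemma isRat_nm {q : ℚ} (h : Bs base (ratN q : Name P)) :
    IsRat (MemM base hU) q (nm base hU (ratN q)) := by
  have h1 : Bs base (opN (natN (-q.num).toNat) (natN q.den) : Name P) := hB _ (hB _ h false) false
  exact ⟨_, _, _, _, isNumeral_nm hU hB hD hω _, isNumeral_nm hU hB hD hω _,
    isNumeral_nm hU hB hD hω _, isPair_nm hU hB hD h1, isPair_nm hU hB hD h⟩

end pairs

lemma Cond.incompat {U : Set Cond} (hU : IsFilt U) {p q : Cond} (hp : p ∈ U) (hq : q ∈ U) (i : ℕ) :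
    p.lo i < q.hi i := by
  obtain ⟨r, _, h1, h2⟩ := hU.dir hp hq
  exact lt_of_le_of_lt (h1 i).1 (lt_of_lt_of_le (r.lt i) (h2 i).2)

/-- the generic real -/
noncomputable def xi (U : Set Cond) (i : ℕ) : ℝ := sSup ((fun p : Cond => (p.lo i : ℝ)) '' U)

lemma bdd_xi {U : Set Cond} (hU : IsFilt U) (i : ℕ) :
    BddAbove ((fun p : Cond => (p.lo i : ℝ)) '' U) := by
  obtain ⟨q, hq⟩ := hU.nonempty
  refine ⟨q.hi i, ?_⟩
  rintro _ ⟨p, hp, rfl⟩
  change (p.lo i : ℝ) ≤ q.hi i
  exact_mod_cast (Cond.incompat hU hp hq i).le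

lemma lt_xi {U : Set Cond} (hU : IsFilt U) (i : ℕ) (r : ℝ) :
    r < xi U i ↔ ∃ p ∈ U, r < p.lo i := by
  rw [xi, lt_csSup_iff (bdd_xi hU i) (hU.nonempty.image _)]
  constructor
  · rintro ⟨_, ⟨p, hp, rfl⟩, h⟩
    exact ⟨p, hp, h⟩
  · rintro ⟨p, hp, h⟩
    exact ⟨_, ⟨p, hp, rfl⟩, h⟩

lemma lo_le_xi {U : Set Cond} (hU : IsFilt U) (i : ℕ) {p : Cond} (hp : p ∈ U) :
    (p.lo i : ℝ) ≤ xi U i := le_csSup (bdd_xi hU i) ⟨p, hp, rfl⟩

lemma xi_le_hi {U : Set Cond} (hU : IsFilt U) (i : ℕ) {p : Cond} (hp : p ∈ U) :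
    xi U i ≤ p.hi i := by
  refine csSup_le (hU.nonempty.image _) ?_
  rintro _ ⟨q, hq, rfl⟩
  change (q.lo i : ℝ) ≤ p.hi i
  exact_mod_cast (Cond.incompat hU hq hp i).le

lemma dense_decide (r : ℝ) (i : ℕ) (p : Cond) :
    ∃ q ≤ p, r < q.lo i ∨ (q.hi i : ℝ) < r := by
  have h1 := p.lt i
  have h2 := p.nonneg i
  have h3 := p.le_one i
  by_cases h : r < ((p.lo i + p.hi i) / 2 : ℚ)
  · obtain ⟨q, e1, e2, e3⟩ := p.exists_update i ((p.lo i + p.hi i) / 2) (p.hi i) (by linarith) h3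
      (by linarith)
    refine ⟨q, fun j => ?_, Or.inl (by rw [e1]; exact h)⟩
    by_cases hj : j = i
    · subst hj
      rw [e1, e2]
      constructor <;> linarith
    · rw [(e3 j hj).1, (e3 j hj).2]
      exact ⟨le_rfl, le_rfl⟩
  · obtain ⟨q, e1, e2, e3⟩ := p.exists_update i (p.lo i) ((3 * p.lo i + p.hi i) / 4) h2
      (by linarith) (by linarith)
    refine ⟨q, fun j => ?_, Or.inr (lt_of_lt_of_le ?_ (not_lt.1 h))⟩
    · by_cases hj : j = i
      · subst hj
        rw [e1, e2]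
        constructor <;> linarith
      · rw [(e3 j hj).1, (e3 j hj).2]
        exact ⟨le_rfl, le_rfl⟩
    · rw [e2]
      have : (3 * p.lo i + p.hi i) / 4 < (p.lo i + p.hi i) / 2 := by linarith
      exact_mod_cast this

lemma dense_fresh (a b : ℚ) (ha : 0 ≤ a) (hab : a < b) (hb : b ≤ 1) (p : Cond) :
    ∃ q ≤ p, ∃ i, a < q.lo i ∧ q.hi i < b := by
  obtain ⟨N, hN⟩ := p.exists_bound
  obtain ⟨q, e1, e2, e3⟩ := p.exists_update N ((2 * a + b) / 3) ((a + 2 * b) / 3) (by linarith)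
    (by linarith) (by linarith)
  refine ⟨q, fun j => ?_, N, by rw [e1]; linarith, by rw [e2]; linarith⟩
  by_cases hj : j = N
  · subst hj
    obtain ⟨h1, h2⟩ := hN j le_rfl
    rw [h1, h2]
    exact ⟨q.nonneg j, q.le_one j⟩
  · rw [(e3 j hj).1, (e3 j hj).2]
    exact ⟨le_rfl, le_rfl⟩

/-- the real number `√2 - 1` -/
noncomputable def rt : ℝ := Real.sqrt 2 - 1

lemma irrational_rt : Irrational rt := by
  have := irrational_sqrt_two.sub_intCast 1
  simpa [rt] using this

lemma rt_pos : 0 < rt := by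
  have : (1 : ℝ) < Real.sqrt 2 := by
    rw [Real.lt_sqrt zero_le_one]; norm_num
  unfold rt
  linarith

lemma rt_lt : rt < 1 := by
  have : Real.sqrt 2 < 2 := by
    rw [Real.sqrt_lt' two_pos]; norm_num
  unfold rt
  linarith

/-- the real numbers that have to be avoided -/
noncomputable def rr (o : Option ℚ) : ℝ := o.elim rt fun q => (q : ℝ)

/-- the sets that the generic filter has to decide -/
def extraSets (base : ℕ → HS Cond FF) : Set (Set Cond) :=
  Set.range (fun a : ℕ × Option ℚ => {p | rr a.2 < p.lo a.1 ∨ (p.hi a.1 : ℝ) < rr a.2}) ∪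
  Set.range (fun a : ℚ × ℚ => {p : Cond | ∃ i, a.1 < p.lo i ∧ p.hi i < a.2}) ∪
  Set.range (fun k : Tm Cond => {p : Cond | (∃ a b : ℚ, 0 ≤ a ∧ a < b ∧ b ≤ 1 ∧
    ∀ r ≤ p, ∀ a' b' : ℚ, a ≤ a' → a' < b' → b' ≤ b → ¬ Psi (ev base k) a' b' r) ∨
      Good (ev base k) p}) ∪
  Set.range (fun a : Tm Cond × ℕ => {p : Cond | ∃ a' b' : ℚ,
    Psi (ev base a.1) a' b' p ∧ a' < p.lo a.2 ∧ p.hi a.2 < b'})

lemma countable_extraSets (base : ℕ → HS Cond FF) : (extraSets base).Countable :=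
  (((Set.countable_range _).union (Set.countable_range _)).union (Set.countable_range _)).union
    (Set.countable_range _)

theorem main_theorem :
    ∃ (M : Type) (E : M → M → Prop), ModelsZF M E ∧ IsOmegaModel E ∧ ¬ IrrationalsKSpace E := by
  classical
  obtain ⟨base, hbase⟩ := exists_base
  obtain ⟨U, hU, hDec⟩ := exists_filter (stdSets base ∪ extraSets base)
    ((countable_stdSets base).union (countable_extraSets base))
  have hD : ∀ S ∈ stdSets base, Dec U S := fun S hS => hDec S (Or.inl hS)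
  have hB : ∀ w, Bs base w → ∀ i, Bs base (w.ch i) := fun w hw i =>
    (hbase _).2 (InTC.child w i ((hbase w).1 hw))
  have hBW : Bs base WN := (hbase _).2 InTC.self
  have hω : Bs base (omegaN : Name Cond) := hB WN hBW none
  have hDN : Bs base DN := hB WN hBW (some none)
  have hrt : Bs base (setN {q : ℚ | (q : ℝ) < Real.sqrt 2 - 1}) := hB WN hBW (some (some none))
  have hlowB : ∀ q : ℚ, Bs base (setN (Set.Iio q)) := fun q =>
    hB WN hBW (some (some (some (Sum.inl q))))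
  have hhighB : ∀ q : ℚ, Bs base (setN (Set.Ioi q)) := fun q =>
    hB WN hBW (some (some (some (Sum.inr q))))
  have hratB : ∀ q : ℚ, Bs base (ratN q : Name Cond) := fun q =>
    hB _ (hlowB (q + 1)) ⟨q, by simp⟩
  have hcB : ∀ i, Bs base (cN i) := fun i => hB _ hDN i
  have hM := modelsZF hU hB hD normal_FF hω
  set E := MemM base hU with hE
  have hrat : ∀ q : ℚ, IsRat E q (nm base hU (ratN q)) := fun q => isRat_nm hU hB hD hω (hratB q)
  have hrat' : ∀ (q : ℚ) z, z = nm base hU (ratN q) ↔ IsRat E q z := fun q z =>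
    ⟨fun h => h ▸ hrat q, fun h => rat_unique hM h (hrat q)⟩
  have hset : ∀ S : Set ℚ, Bs base (setN S : Name Cond) → ∀ z, E z (nm base hU (setN S)) ↔
      ∃ q ∈ S, IsRat E q z := by
    intro S hS z
    rw [hE, mem_nm_top hU hB hD hS (fun _ => rfl)]
    constructor
    · rintro ⟨q, hq⟩
      exact ⟨q.1, q.2, (hrat' _ _).1 hq⟩
    · rintro ⟨q, hq, h⟩
      exact ⟨⟨q, hq⟩, (hrat' _ _).2 h⟩
  have hratE : ∀ q : ℚ, ∃ z, IsRat E q z := fun q => ⟨_, hrat q⟩
  -- the Cohen reals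
  have hcmem : ∀ i (q : ℚ), (q : ℝ) < xi U i ↔ ∃ p ∈ U, q < p.lo i := by
    intro i q
    rw [lt_xi hU]
    constructor
    · rintro ⟨p, hp, h⟩
      exact ⟨p, hp, by exact_mod_cast h⟩
    · rintro ⟨p, hp, h⟩
      exact ⟨p, hp, by exact_mod_cast h⟩
  have hcreal : ∀ i, IsReal E (xi U i) (nm base hU (cN i)) := by
    intro i z
    rw [hE, mem_nm hU hB hD (hcB i)]
    constructor
    · rintro ⟨q, hq, h⟩
      exact ⟨q, (hcmem i q).2 hq, (hrat' q z).1 h⟩
    · rintro ⟨q, hq, h⟩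
      exact ⟨q, (hcmem i q).1 hq, (hrat' q z).2 h⟩
  have hxne : ∀ i o, xi U i ≠ rr o := by
    intro i o h
    obtain ⟨p, hp⟩ := hU.nonempty
    obtain ⟨q, hq, hq'⟩ := (hDec _ (Or.inr (Or.inl (Or.inl (Or.inl ⟨(i, o), rfl⟩))))).meets hU hp
      (fun q _ => dense_decide (rr o) i q)
    have h1 := lo_le_xi hU i hq
    have h2 := xi_le_hi hU i hq
    rcases hq' with h3 | h3
    · have h3' : rr o < q.lo i := h3
      linarith
    · have h3' : (q.hi i : ℝ) < rr o := h3
      linarith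
  have hxirr : ∀ i, Irrational (xi U i) := by
    rintro i ⟨q, hq⟩
    exact hxne i (some q) hq.symm
  have hxrt : ∀ i, xi U i ≠ rt := fun i => hxne i none
  have hxdense : ∀ a b : ℚ, 0 ≤ a → a < b → b ≤ 1 → ∃ i, (a : ℝ) < xi U i ∧ xi U i < b := by
    intro a b ha hab hb
    obtain ⟨p, hp⟩ := hU.nonempty
    obtain ⟨q, hq, i, h1, h2⟩ := (hDec _ (Or.inr (Or.inl (Or.inl (Or.inr ⟨(a, b), rfl⟩))))).meets
      hU hp (fun q _ => dense_fresh a b ha hab hb q)
    have h1' : a < q.lo i := h1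
    have h2' : q.hi i < b := h2
    refine ⟨i, lt_of_lt_of_le (by exact_mod_cast h1') (lo_le_xi hU i hq),
      lt_of_le_of_lt (xi_le_hi hU i hq) (by exact_mod_cast h2')⟩
  have hDmem : ∀ z, E z (nm base hU DN) ↔ ∃ i, z = nm base hU (cN i) := fun z =>
    mem_nm_top hU hB hD hDN (fun _ => rfl) z
  -- compact sets contain finitely many Cohen reals
  have hfin : ∀ K, IsCompactIrr E K → {i | E (nm base hU (cN i)) K}.Finite := by
    intro K hK
    obtain ⟨k, rfl⟩ := toM_surj base hU K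
    -- nowhere density is forced
    have hnd : ∀ a b : ℚ, a < b → ∃ a' b' : ℚ, a ≤ a' ∧ a' < b' ∧ b' ≤ b ∧
        ∃ p ∈ U, Psi (ev base k) a' b' p := by
      intro a b hab
      obtain ⟨a', b', h1, h2, h3, h4⟩ := compact_nowhere_dense hM hratE
        (fun q => ⟨_, fun z => hset _ (hlowB q) z⟩) (fun q => ⟨_, fun z => hset _ (hhighB q) z⟩)
        hK a b hab
      refine ⟨a', b', h1, h2, h3, ?_⟩
      obtain ⟨ta, hta, hta2⟩ := nm_spec hU (hratB a')
      obtain ⟨tb, htb, htb2⟩ := nm_spec hU (hratB b')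
      have h5 : Sat E PsiF (toM base hU ∘ Fin.cons k (Fin.cons ta (Fin.cons tb Fin.elim0))) := by
        intro x hx hax
        exact h4 x hx _ _ (hrat a') (hrat b') (by rw [hta]; exact hax) |> fun h => by
          rw [htb] at h; exact h
      rw [hE, truth base hU hD] at h5
      obtain ⟨p, hp, h6⟩ := h5
      refine ⟨p, hp, ?_⟩
      have e1 : ev base ta = ratH a' := Subtype.ext hta2
      have e2 : ev base tb = ratH b' := Subtype.ext htb2
      rw [Fin.comp_cons, Fin.comp_cons, Fin.comp_cons, e1, e2] at h6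
      have e3 : (ev base ∘ Fin.elim0 : Fin 0 → HS Cond FF) = Fin.elim0 := funext fun i => i.elim0
      rw [e3] at h6
      exact h6
    have hgood : ∃ p ∈ U, Good (ev base k) p := by
      obtain ⟨p, hp⟩ := hU.nonempty
      obtain ⟨q, hq, h⟩ := (hDec _ (Or.inr (Or.inl (Or.inr ⟨k, rfl⟩)))).meets hU hp (by
        intro q _
        by_cases hg : Good (ev base k) q
        · exact ⟨q, le_rfl, Or.inr hg⟩
        · unfold Good at hg
          push Not at hg
          obtain ⟨a, b, ha, hab, hb, r, hr, h⟩ := hg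
          exact ⟨r, hr, Or.inl ⟨a, b, ha, hab, hb, fun s hs a' b' h1 h2 h3 => h s hs a' b' h1 h2 h3⟩⟩)
      rcases h with ⟨a, b, ha, hab, hb, h⟩ | h
      · obtain ⟨a', b', h1, h2, h3, r, hr, h4⟩ := hnd a b hab
        obtain ⟨s, _, hs1, hs2⟩ := hU.dir hq hr
        exact absurd (psi_mono hs2 h4) (h s hs1 a' b' h1 h2 h3)
      · exact ⟨q, hq, h⟩
    obtain ⟨p, hp, hg⟩ := hgood
    obtain ⟨A, hA⟩ := (mem_FF _).1 (ev base k).2.sym
    refine (A.finite_toSet.union p.fin).subset fun i hi => ?_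
    by_contra hc
    simp only [Set.mem_union, Finset.mem_coe, Set.mem_ofPred_eq, not_or, not_not] at hc
    obtain ⟨s, hs, h⟩ := (hDec _ (Or.inr (Or.inr ⟨(k, i), rfl⟩))).meets hU hp
      (main_dense (ev base k) A hA p hg i hc.1 hc.2.1 hc.2.2)
    obtain ⟨a', b', h1, h2, h3⟩ := h
    -- in the model, `a' ∈ c_i → b' ∈ c_i`
    obtain ⟨ta, hta, hta2⟩ := nm_spec hU (hratB a')
    obtain ⟨tb, htb, htb2⟩ := nm_spec hU (hratB b')
    have h5 : Sat E PsiF (toM base hU ∘ Fin.cons k (Fin.cons ta (Fin.cons tb Fin.elim0))) := by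
      rw [hE, truth base hU hD]
      refine ⟨s, hs, ?_⟩
      have e1 : ev base ta = ratH a' := Subtype.ext hta2
      have e2 : ev base tb = ratH b' := Subtype.ext htb2
      rw [Fin.comp_cons, Fin.comp_cons, Fin.comp_cons, e1, e2]
      have e3 : (ev base ∘ Fin.elim0 : Fin 0 → HS Cond FF) = Fin.elim0 := funext fun i => i.elim0
      rw [e3]
      exact h1
    have h6 : E (nm base hU (ratN a')) (nm base hU (cN i)) →
        E (nm base hU (ratN b')) (nm base hU (cN i)) := by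
      rw [hta, htb]
      exact h5 _ hi
    rw [mem_real hM (hcreal i) (hrat a'), mem_real hM (hcreal i) (hrat b')] at h6
    have h7 := h6 (lt_of_lt_of_le (by exact_mod_cast h2) (lo_le_xi hU i hs))
    have h8 := xi_le_hi hU i hs
    have h9 : (s.hi i : ℝ) < b' := by exact_mod_cast h3
    linarith
  refine ⟨Mod base hU, E, hM, isOmegaModel hU hB hD hω, fun hk => ?_⟩
  have hDirr : IsSetOfIrr E (nm base hU DN) := by
    intro x hx
    obtain ⟨i, rfl⟩ := (hDmem x).1 hx
    exact ⟨_, hxirr i, hcreal i⟩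
  have hclosed := hk (nm base hU DN) hDirr (by
    intro K hK y hyK hyD
    obtain ⟨r, _, hr⟩ := hK.1 y hyK
    have hF := hfin K hK
    have hcl : IsClosed (xi U '' {i | E (nm base hU (cN i)) K}) := (hF.image _).isClosed
    have hr' : r ∈ (xi U '' {i | E (nm base hU (cN i)) K})ᶜ := by
      rintro ⟨i, _, rfl⟩
      exact hyD ((hDmem y).2 ⟨i, real_unique hM hr (hcreal i)⟩)
    obtain ⟨ε, hε, hball⟩ := Metric.isOpen_iff.1 hcl.isOpen_compl r hr'
    obtain ⟨a, ha1, ha2⟩ := exists_rat_btwn (sub_lt_self r hε)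
    obtain ⟨b, hb1, hb2⟩ := exists_rat_btwn (lt_add_of_pos_right r hε)
    refine ⟨a, b, ⟨r, hr, ha2, hb1⟩, fun z hzD hzK hz => ?_⟩
    obtain ⟨i, rfl⟩ := (hDmem z).1 hzD
    obtain ⟨s, hs, hs1, hs2⟩ := hz
    have := real_inj hM hratE hs (hcreal i)
    subst this
    have hin : xi U i ∈ Metric.ball r ε := by
      rw [Metric.mem_ball, Real.dist_eq, abs_lt]
      constructor <;> linarith
    exact hball hin ⟨i, hzK, rfl⟩)
  have hrtreal : IsReal E rt (nm base hU (setN {q : ℚ | (q : ℝ) < Real.sqrt 2 - 1})) := by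
    intro z
    rw [hset _ hrt]
    exact Iff.rfl
  obtain ⟨a, b, ⟨r, hr, har, hrb⟩, hab⟩ := hclosed _ ⟨rt, irrational_rt, hrtreal⟩ (by
    intro h
    obtain ⟨i, hi⟩ := (hDmem _).1 h
    have h1 := hcreal i
    rw [← hi] at h1
    exact hxrt i (real_inj hM hratE h1 hrtreal))
  have := real_inj hM hratE hr hrtreal
  subst this
  have h1 : ((max a 0 : ℚ) : ℝ) < rt := by
    rw [Rat.cast_max]
    exact max_lt har (by simpa using rt_pos)
  have h2 : rt < ((min b 1 : ℚ) : ℝ) := by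
    rw [Rat.cast_min]
    exact lt_min hrb (by simpa using rt_lt)
  obtain ⟨i, h3, h4⟩ := hxdense (max a 0) (min b 1) (le_max_right _ _)
    (by exact_mod_cast h1.trans h2) (min_le_right _ _)
  refine hab _ ((hDmem _).2 ⟨i, rfl⟩) ⟨xi U i, hcreal i, lt_of_le_of_lt ?_ h3,
    lt_of_lt_of_le h4 ?_⟩
  · exact_mod_cast le_max_left a 0
  · exact_mod_cast min_le_left b 1

end MP478558
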