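import Pool.Agent.Lib.MP_478558_lc.Defs

/-!
Derived connectives, renaming of variables and countability of the set of formulas.
-/

namespace MP478558

namespace Fml

/-- negation -/
def neg {n : ℕ} (φ : Fml n) : Fml n := imp φ bot
/-- conjunction -/
def conj {n : ℕ} (φ ψ : Fml n) : Fml n := neg (imp φ (neg ψ))
/-- disjunction -/
def disj {n : ℕ} (φ ψ : Fml n) : Fml n := imp (neg φ) ψ
/-- equivalence -/
def equ {n : ℕ} (φ ψ : Fml n) : Fml n := conj (imp φ ψ) (imp ψ φ)
/-- existential quantifier -/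
def ex {n : ℕ} (φ : Fml (n + 1)) : Fml n := neg (all (neg φ))

/-- renaming of variables -/
def ren : {n m : ℕ} → (Fin n → Fin m) → Fml n → Fml m
  | _, _, f, .mem i j => .mem (f i) (f j)
  | _, _, f, .eq i j => .eq (f i) (f j)
  | _, _, _, .bot => .bot
  | _, _, f, .imp φ ψ => .imp (ren f φ) (ren f ψ)
  | _, _, f, .all φ => .all (ren (Fin.cons 0 (Fin.succ ∘ f)) φ)

/-- a code of a formula -/
def code : {n : ℕ} → Fml n → ℕ
  | _, .mem i j => 5 * Nat.pair i j
  | _, .eq i j => 5 * Nat.pair i j + 1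
  | _, .bot => 2
  | _, .imp φ ψ => 5 * Nat.pair (code φ) (code ψ) + 3
  | _, .all φ => 5 * code φ + 4

lemma code_inj {n : ℕ} (φ ψ : Fml n) (h : code φ = code ψ) : φ = ψ := by
  induction φ with
  | mem i j =>
    cases ψ <;> simp only [code] at h <;> try omega
    rename_i k l
    have h' : Nat.pair (i : ℕ) j = Nat.pair k l := by omega
    rw [Nat.pair_eq_pair] at h'
    rw [Fin.ext h'.1, Fin.ext h'.2]
  | eq i j =>
    cases ψ <;> simp only [code] at h <;> try omega
    rename_i k l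
    have h' : Nat.pair (i : ℕ) j = Nat.pair k l := by omega
    rw [Nat.pair_eq_pair] at h'
    rw [Fin.ext h'.1, Fin.ext h'.2]
  | bot =>
    cases ψ <;> simp only [code] at h <;> try omega
    rfl
  | imp φ₁ φ₂ ih₁ ih₂ =>
    cases ψ <;> simp only [code] at h <;> try omega
    rename_i ψ₁ ψ₂
    have h' : Nat.pair (code φ₁) (code φ₂) = Nat.pair (code ψ₁) (code ψ₂) := by omega
    rw [Nat.pair_eq_pair] at h'
    rw [ih₁ _ h'.1, ih₂ _ h'.2]
  | all φ ih =>
    cases ψ <;> simp only [code] at h <;> try omega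
    rename_i ψ
    have h' : code φ = code ψ := by omega
    rw [ih _ h']

instance instCountable (n : ℕ) : Countable (Fml n) :=
  Function.Injective.countable (f := code) fun φ ψ h => code_inj φ ψ h

end Fml

open Fml

section

variable {M : Type} (E : M → M → Prop) {n : ℕ}

@[simp] lemma sat_mem (i j : Fin n) (v : Fin n → M) : Sat E (.mem i j) v ↔ E (v i) (v j) := Iff.rfl
@[simp] lemma sat_eq (i j : Fin n) (v : Fin n → M) : Sat E (.eq i j) v ↔ v i = v j := Iff.rfl
@[simp] lemma sat_bot (v : Fin n → M) : Sat E .bot v ↔ False := Iff.rfl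
@[simp] lemma sat_imp (φ ψ : Fml n) (v : Fin n → M) :
    Sat E (.imp φ ψ) v ↔ (Sat E φ v → Sat E ψ v) := Iff.rfl
@[simp] lemma sat_all (φ : Fml (n + 1)) (v : Fin n → M) :
    Sat E (.all φ) v ↔ ∀ x : M, Sat E φ (Fin.cons x v) := Iff.rfl
@[simp] lemma sat_neg (φ : Fml n) (v : Fin n → M) : Sat E (neg φ) v ↔ ¬ Sat E φ v := Iff.rfl
@[simp] lemma sat_conj (φ ψ : Fml n) (v : Fin n → M) :
    Sat E (conj φ ψ) v ↔ (Sat E φ v ∧ Sat E ψ v) := by
  simp only [conj, sat_neg, sat_imp]; tauto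
@[simp] lemma sat_disj (φ ψ : Fml n) (v : Fin n → M) :
    Sat E (disj φ ψ) v ↔ (Sat E φ v ∨ Sat E ψ v) := by
  simp only [disj, sat_neg, sat_imp]; tauto
@[simp] lemma sat_equ (φ ψ : Fml n) (v : Fin n → M) :
    Sat E (equ φ ψ) v ↔ (Sat E φ v ↔ Sat E ψ v) := by
  simp only [equ, sat_conj, sat_imp]; tauto
@[simp] lemma sat_ex (φ : Fml (n + 1)) (v : Fin n → M) :
    Sat E (ex φ) v ↔ ∃ x : M, Sat E φ (Fin.cons x v) := by
  simp only [ex, sat_neg, sat_all, not_forall, not_not]

end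

lemma cons_comp_lift {α : Type*} {n m : ℕ} (f : Fin n → Fin m) (x : α) (v : Fin m → α) :
    (Fin.cons x v : Fin (m + 1) → α) ∘ (Fin.cons 0 (Fin.succ ∘ f) : Fin (n + 1) → Fin (m + 1)) =
      Fin.cons x (v ∘ f) := by
  funext i
  refine Fin.cases ?_ (fun i => ?_) i <;> simp

lemma sat_ren {M : Type} (E : M → M → Prop) {n m : ℕ} (f : Fin n → Fin m) (φ : Fml n)
    (v : Fin m → M) : Sat E (ren f φ) v ↔ Sat E φ (v ∘ f) := by
  induction φ generalizing m with
  | mem i j => exact Iff.rfl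
  | eq i j => exact Iff.rfl
  | bot => exact Iff.rfl
  | imp φ ψ ih₁ ih₂ => exact imp_congr (ih₁ f v) (ih₂ f v)
  | all φ ih =>
    simp only [ren, sat_all]
    refine forall_congr' fun x => ?_
    rw [ih, cons_comp_lift]

end MP478558
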