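import Pool.Agent.Lib.MP_478558_lc.Act
import Pool.Agent.Lib.MP_478558_lc.Fml

/-!
The forcing relation over the hereditarily symmetric names.
-/

namespace MP478558

open Name Fml

variable {P G : Type} [Preorder P] [Group G] [OrdAct G P]

/-- the type of hereditarily symmetric names -/
abbrev HS (P : Type) [Preorder P] [OrdAct G P] (𝓕 : Filter G) := {x : Name P // HSp 𝓕 x}

variable (𝓕 : Filter G)

/-- the forcing relation -/
def Forces : {n : ℕ} → Fml n → (Fin n → HS P 𝓕) → P → Prop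
  | _, .mem i j, v, p => fmem (v i).1 (v j).1 p
  | _, .eq i j, v, p => feq (v i).1 (v j).1 p
  | _, .bot, _, _ => False
  | _, .imp φ ψ, v, p => ∀ q ≤ p, Forces φ v q → Forces ψ v q
  | _, .all φ, v, p => ∀ x : HS P 𝓕, Forces φ (Fin.cons x v) p

variable {𝓕} {n : ℕ}

lemma forces_mem (i j : Fin n) (v : Fin n → HS P 𝓕) (p : P) :
    Forces 𝓕 (.mem i j) v p ↔ fmem (v i).1 (v j).1 p := Iff.rfl
lemma forces_eq (i j : Fin n) (v : Fin n → HS P 𝓕) (p : P) :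
    Forces 𝓕 (.eq i j) v p ↔ feq (v i).1 (v j).1 p := Iff.rfl
lemma forces_bot (v : Fin n → HS P 𝓕) (p : P) : Forces 𝓕 .bot v p ↔ False := Iff.rfl
lemma forces_imp (φ ψ : Fml n) (v : Fin n → HS P 𝓕) (p : P) :
    Forces 𝓕 (.imp φ ψ) v p ↔ ∀ q ≤ p, Forces 𝓕 φ v q → Forces 𝓕 ψ v q := Iff.rfl
lemma forces_all (φ : Fml (n + 1)) (v : Fin n → HS P 𝓕) (p : P) :
    Forces 𝓕 (.all φ) v p ↔ ∀ x : HS P 𝓕, Forces 𝓕 φ (Fin.cons x v) p := Iff.rfl
lemma forces_neg (φ : Fml n) (v : Fin n → HS P 𝓕) (p : P) :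
    Forces 𝓕 (neg φ) v p ↔ ∀ q ≤ p, ¬ Forces 𝓕 φ v q := Iff.rfl

lemma forces_mono (φ : Fml n) {v : Fin n → HS P 𝓕} {p q : P} (hq : q ≤ p)
    (h : Forces 𝓕 φ v p) : Forces 𝓕 φ v q := by
  induction φ with
  | mem i j => exact fmem_mono hq h
  | eq i j => exact feq_mono hq h
  | bot => exact h
  | imp φ ψ _ _ => exact fun r hr => h r (hr.trans hq)
  | all φ ih => exact fun x => ih (h x)

lemma forces_stable (φ : Fml n) {v : Fin n → HS P 𝓕} {p : P}
    (h : ∀ q ≤ p, ∃ r ≤ q, Forces 𝓕 φ v r) : Forces 𝓕 φ v p := by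
  induction φ generalizing p with
  | mem i j => exact fmem_stable h
  | eq i j => exact feq_stable h
  | bot => obtain ⟨r, _, hr⟩ := h p le_rfl; exact hr
  | imp φ ψ _ ih =>
    intro q hq hφ
    refine ih fun q' hq' => ?_
    obtain ⟨r, hr, h2⟩ := h q' (hq'.trans hq)
    exact ⟨r, hr, h2 r le_rfl (forces_mono φ (hr.trans hq') hφ)⟩
  | all φ ih =>
    intro x
    refine ih fun q hq => ?_
    obtain ⟨r, hr, h2⟩ := h q hq
    exact ⟨r, hr, h2 x⟩

/-- if `p` does not force `φ` then some extension forces the negation of `φ` -/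
lemma exists_forces_neg (φ : Fml n) {v : Fin n → HS P 𝓕} {p : P} (h : ¬ Forces 𝓕 φ v p) :
    ∃ q ≤ p, Forces 𝓕 (neg φ) v q := by
  by_contra hc
  push Not at hc
  apply h
  refine forces_stable φ fun q hq => ?_
  by_contra hc2
  push Not at hc2
  exact hc q hq hc2

lemma forces_conj (φ ψ : Fml n) (v : Fin n → HS P 𝓕) (p : P) :
    Forces 𝓕 (conj φ ψ) v p ↔ Forces 𝓕 φ v p ∧ Forces 𝓕 ψ v p := by
  simp only [conj, forces_neg, forces_imp]
  constructor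
  · intro h
    have h' : ∀ q ≤ p, ∃ r ≤ q, Forces 𝓕 φ v r ∧ Forces 𝓕 ψ v r := by
      intro q hq
      have := h q hq
      push Not at this
      obtain ⟨r, hr, h1, s, hs, h2⟩ := this
      exact ⟨s, hs.trans hr, forces_mono φ hs h1, h2⟩
    exact ⟨forces_stable φ fun q hq => (h' q hq).imp fun r hr => ⟨hr.1, hr.2.1⟩,
      forces_stable ψ fun q hq => (h' q hq).imp fun r hr => ⟨hr.1, hr.2.2⟩⟩
  · rintro ⟨h1, h2⟩ q hq h3
    exact h3 q le_rfl (forces_mono φ hq h1) q le_rfl (forces_mono ψ hq h2)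

lemma forces_disj (φ ψ : Fml n) (v : Fin n → HS P 𝓕) (p : P) :
    Forces 𝓕 (disj φ ψ) v p ↔ ∀ q ≤ p, ∃ r ≤ q, Forces 𝓕 φ v r ∨ Forces 𝓕 ψ v r := by
  simp only [disj, forces_neg, forces_imp]
  constructor
  · intro h q hq
    by_cases h1 : ∀ r ≤ q, ¬ Forces 𝓕 φ v r
    · exact ⟨q, le_rfl, Or.inr (h q hq h1)⟩
    · push Not at h1
      obtain ⟨r, hr, h2⟩ := h1
      exact ⟨r, hr, Or.inl h2⟩
  · intro h q hq h1
    refine forces_stable ψ fun r hr => ?_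
    obtain ⟨s, hs, h2 | h2⟩ := h r (hr.trans hq)
    · exact absurd h2 (h1 s (hs.trans hr))
    · exact ⟨s, hs, h2⟩

lemma forces_equ (φ ψ : Fml n) (v : Fin n → HS P 𝓕) (p : P) :
    Forces 𝓕 (equ φ ψ) v p ↔ ∀ q ≤ p, (Forces 𝓕 φ v q ↔ Forces 𝓕 ψ v q) := by
  simp only [equ, forces_conj, forces_imp]
  exact ⟨fun h q hq => ⟨h.1 q hq, h.2 q hq⟩, fun h => ⟨fun q hq => (h q hq).1, fun q hq => (h q hq).2⟩⟩

lemma forces_ex (φ : Fml (n + 1)) (v : Fin n → HS P 𝓕) (p : P) :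
    Forces 𝓕 (ex φ) v p ↔ ∀ q ≤ p, ∃ r ≤ q, ∃ x, Forces 𝓕 φ (Fin.cons x v) r := by
  simp only [ex, forces_neg, forces_all]
  constructor
  · intro h q hq
    have := h q hq
    push Not at this
    obtain ⟨x, r, hr, h2⟩ := this
    exact ⟨r, hr, x, h2⟩
  · intro h q hq h1
    obtain ⟨r, hr, x, h2⟩ := h q hq
    exact h1 x r hr h2

lemma forces_ren {m : ℕ} (f : Fin n → Fin m) (φ : Fml n) (v : Fin m → HS P 𝓕) (p : P) :
    Forces 𝓕 (ren f φ) v p ↔ Forces 𝓕 φ (v ∘ f) p := by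
  induction φ generalizing m p with
  | mem i j => exact Iff.rfl
  | eq i j => exact Iff.rfl
  | bot => exact Iff.rfl
  | imp φ ψ ih₁ ih₂ =>
    exact forall_congr' fun q => imp_congr Iff.rfl (imp_congr (ih₁ f v q) (ih₂ f v q))
  | all φ ih =>
    simp only [ren, forces_all]
    refine forall_congr' fun x => ?_
    rw [ih, cons_comp_lift]

lemma forces_congr (φ : Fml n) {v w : Fin n → HS P 𝓕} {p : P}
    (h : ∀ i, feq (v i).1 (w i).1 p) : Forces 𝓕 φ v p ↔ Forces 𝓕 φ w p := by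
  induction φ generalizing p with
  | mem i j =>
    exact ⟨fun h1 => fmem_congr_left (h i) (fmem_congr_right (h j) h1),
      fun h1 => fmem_congr_left (feq_symm (h i)) (fmem_congr_right (feq_symm (h j)) h1)⟩
  | eq i j =>
    exact ⟨fun h1 => feq_trans (feq_symm (h i)) (feq_trans h1 (h j)),
      fun h1 => feq_trans (h i) (feq_trans h1 (feq_symm (h j)))⟩
  | bot => exact Iff.rfl
  | imp φ ψ ih₁ ih₂ =>
    refine forall_congr' fun q => forall_congr' fun hq => ?_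
    exact imp_congr (ih₁ fun i => feq_mono hq (h i)) (ih₂ fun i => feq_mono hq (h i))
  | all φ ih =>
    refine forall_congr' fun x => ih fun i => ?_
    refine Fin.cases ?_ (fun i => ?_) i
    · simpa using feq_refl x.1 p
    · simpa using h i

/-- the action on hereditarily symmetric names -/
def sm (h𝓕 : Normal 𝓕) (g : G) (x : HS P 𝓕) : HS P 𝓕 := ⟨g • x.1, x.2.smul h𝓕 g⟩

lemma sm_inv (h𝓕 : Normal 𝓕) (g : G) (x : HS P 𝓕) : sm h𝓕 g (sm h𝓕 g⁻¹ x) = x :=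
  Subtype.ext (smul_inv_smul g x.1)

lemma forces_smul (h𝓕 : Normal 𝓕) (φ : Fml n) (g : G) (v : Fin n → HS P 𝓕) (p : P) :
    Forces 𝓕 φ (sm h𝓕 g ∘ v) (g • p) ↔ Forces 𝓕 φ v p := by
  induction φ generalizing p with
  | mem i j => exact fmem_smul g _ _ _
  | eq i j => exact feq_smul g _ _ _
  | bot => exact Iff.rfl
  | imp φ ψ ih₁ ih₂ =>
    simp only [forces_imp]
    constructor
    · intro h q hq h1
      exact (ih₂ v q).1 (h (g • q) (OrdAct.act_le g hq) ((ih₁ v q).2 h1))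
    · intro h q hq h1
      have hq' : g⁻¹ • q ≤ p := by
        have := OrdAct.act_le g⁻¹ hq
        rwa [inv_smul_smul] at this
      have h2 := ih₁ v (g⁻¹ • q)
      have h3 := ih₂ v (g⁻¹ • q)
      rw [smul_inv_smul] at h2 h3
      exact h3.2 (h _ hq' (h2.1 h1))
  | all φ ih =>
    simp only [forces_all]
    constructor
    · intro h x
      have := h (sm h𝓕 g x)
      rw [← Fin.comp_cons] at this
      exact (ih _ p).1 this
    · intro h x
      have := (ih _ p).2 (h (sm h𝓕 g⁻¹ x))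
      rw [Fin.comp_cons, sm_inv] at this
      exact this

lemma eventually_fix (v : Fin n → HS P 𝓕) :
    ∀ᶠ g in 𝓕, ∀ i, ∀ p : P, feq (g • (v i).1) (v i).1 p :=
  Filter.eventually_all.2 fun i => (v i).2.sym

lemma eventually_forces_smul (h𝓕 : Normal 𝓕) (φ : Fml (n + 1)) (v : Fin n → HS P 𝓕) :
    ∀ᶠ g in 𝓕, ∀ (y : HS P 𝓕) (p : P),
      Forces 𝓕 φ (Fin.cons (sm h𝓕 g y) v) (g • p) ↔ Forces 𝓕 φ (Fin.cons y v) p := by
  filter_upwards [eventually_fix v] with g hg y p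
  rw [← forces_smul h𝓕 φ g (Fin.cons y v) p, Fin.comp_cons]
  refine forces_congr φ fun i => ?_
  refine Fin.cases ?_ (fun i => ?_) i
  · exact feq_refl _ _
  · simp only [Fin.cons_succ, Function.comp_apply]
    exact feq_symm (hg i (g • p))

lemma eventually_forces_smul' (h𝓕 : Normal 𝓕) (φ : Fml n) (v : Fin n → HS P 𝓕) :
    ∀ᶠ g in 𝓕, ∀ (p : P), Forces 𝓕 φ v (g • p) ↔ Forces 𝓕 φ v p := by
  filter_upwards [eventually_fix v] with g hg p
  rw [← forces_smul h𝓕 φ g v p]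
  exact forces_congr φ fun i => feq_symm (hg i (g • p))

/-- criterion for symmetry -/
lemma hsp_of_crit (h𝓕 : Normal 𝓕) {w : Name P} (hch : ∀ i, HSp 𝓕 (w.ch i))
    (Ψ : HS P 𝓕 → P → Prop) (hΨ : ∀ (y : HS P 𝓕) (p : P), fmem y.1 w p ↔ Ψ y p)
    (hinv : ∀ᶠ g in 𝓕, ∀ (y : HS P 𝓕) (p : P), Ψ (sm h𝓕 g y) (g • p) ↔ Ψ y p) : HSp 𝓕 w := by
  refine HSp.intro hch ?_
  filter_upwards [hinv] with g hg p
  have key : ∀ (y : HS P 𝓕) (q : P), fmem y.1 (g • w) q ↔ fmem y.1 w q := by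
    intro y q
    have h1 := hg (sm h𝓕 g⁻¹ y) (g⁻¹ • q)
    rw [sm_inv, smul_inv_smul, ← hΨ, ← hΨ] at h1
    rw [h1]
    have h2 := fmem_smul g (g⁻¹ • y.1) w (g⁻¹ • q)
    rw [smul_inv_smul, smul_inv_smul] at h2
    exact h2
  rw [feq_iff']
  constructor
  · intro i q _ hq
    have hHS : HSp 𝓕 ((g • w).ch i) := by
      cases w with
      | mk ι A b => exact (hch i).smul h𝓕 g
    exact (key ⟨_, hHS⟩ q).1 (fmem_ch _ i hq)
  · intro i q _ hq
    exact (key ⟨_, hch i⟩ q).2 (fmem_ch _ i hq)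

lemma hsp_of_formula (h𝓕 : Normal 𝓕) {w : Name P} (hch : ∀ i, HSp 𝓕 (w.ch i))
    (φ : Fml (n + 1)) (v : Fin n → HS P 𝓕)
    (hφ : ∀ (y : HS P 𝓕) (p : P), fmem y.1 w p ↔ Forces 𝓕 φ (Fin.cons y v) p) : HSp 𝓕 w :=
  hsp_of_crit h𝓕 hch _ hφ (eventually_forces_smul h𝓕 φ v)

end MP478558
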