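import Pool.Agent.Lib.MP_478558_lc.Cohen

/-!
The homogeneity argument for Cohen's symmetric model.
-/

namespace MP478558

open Name Fml

lemma exists_perm (A : Finset ℕ) (N : ℕ) (hA : ∀ j ∈ A, j < N) :
    ∃ g : Equiv.Perm ℕ, (∀ j ∈ A, g j = j) ∧ (∀ j ∈ A, g⁻¹ j = j) ∧
      ∀ j, j < N → j ∉ A → N ≤ g⁻¹ j := by
  classical
  set f : ℕ → ℕ := fun j => if j < N then (if j ∈ A then j else j + N) else
    if j - N < N ∧ j - N ∉ A then j - N else j with hf
  have hinv : Function.Involutive f := by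
    intro j
    simp only [hf]
    by_cases h1 : j < N
    · by_cases h2 : j ∈ A
      · simp [h1, h2]
      · simp [h1, h2]
    · by_cases h3 : j - N < N ∧ j - N ∉ A
      · have : j - N + N = j := by omega
        simp [h1, h3, this]
      · simp [h1, h3]
  refine ⟨hinv.toPerm, fun j hj => ?_, fun j hj => ?_, fun j hj hjA => ?_⟩
  · change f j = j
    simp [hf, hA j hj, hj]
  · change f j = j
    simp [hf, hA j hj, hj]
  · change N ≤ f j
    simp [hf, hj, hjA]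

/-- rational numbers as hereditarily symmetric names -/
def ratH (q : ℚ) : HS Cond FF := ⟨ratN q, hsp_ratN q⟩

/-- the formula saying that no element of `k` is a cut between `a` and `b` -/
def PsiF : Fml 3 := .all (.imp (.mem 0 1) (.imp (.mem 2 0) (.mem 3 0)))

/-- `p` forces that no element of `k` lies between `a` and `b` -/
def Psi (k : HS Cond FF) (a b : ℚ) (p : Cond) : Prop :=
  Forces FF PsiF (Fin.cons k (Fin.cons (ratH a) (Fin.cons (ratH b) Fin.elim0))) p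

lemma psi_mono {k : HS Cond FF} {a b : ℚ} {p q : Cond} (hq : q ≤ p) (h : Psi k a b p) :
    Psi k a b q := forces_mono _ hq h

lemma psi_smul (k : HS Cond FF) (g : Equiv.Perm ℕ) (hg : ∀ p, feq (g • k.1) k.1 p) (a b : ℚ)
    (p : Cond) : Psi k a b (g • p) ↔ Psi k a b p := by
  unfold Psi
  rw [← forces_smul normal_FF PsiF g _ p]
  refine forces_congr PsiF fun i => ?_
  refine Fin.cases ?_ (fun i => Fin.cases ?_ (fun i => Fin.cases ?_ (fun i => i.elim0) i) i) i
  · exact feq_symm (hg _)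
  · change feq (ratN a) (g • ratN a) _
    rw [smul_ratN]
    exact feq_refl _ _
  · change feq (ratN b) (g • ratN b) _
    rw [smul_ratN]
    exact feq_refl _ _

lemma psi_restrict (k : HS Cond FF) (A : Finset ℕ)
    (hA : ∀ g : Equiv.Perm ℕ, (∀ i ∈ A, g i = i) → ∀ p, feq (g • k.1) k.1 p) (a b : ℚ)
    (r r0 : Cond) (h0 : ∀ j ∈ A, r0.lo j = r.lo j ∧ r0.hi j = r.hi j) (h : Psi k a b r) :
    Psi k a b r0 := by
  refine forces_stable _ fun t ht => ?_
  obtain ⟨N1, hN1⟩ := r.exists_bound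
  obtain ⟨N2, hN2⟩ := t.exists_bound
  obtain ⟨N3, hN3⟩ : ∃ N3, ∀ j ∈ A, j < N3 := ⟨A.sup id + 1, fun j hj =>
    Nat.lt_succ_of_le (Finset.le_sup (f := id) hj)⟩
  obtain ⟨g, hg1, hg2, hg3⟩ := exists_perm A (max N1 (max N2 N3)) fun j hj =>
    lt_of_lt_of_le (hN3 j hj) ((le_max_right _ _).trans (le_max_right _ _))
  obtain ⟨t', h1, h2⟩ := Cond.exists_meet t (g • r) (by
    intro j
    rw [Cond.smul_lo, Cond.smul_hi]
    by_cases hjN : j < max N1 (max N2 N3)
    · by_cases hjA : j ∈ A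
      · rw [hg2 j hjA, ← (h0 j hjA).1, ← (h0 j hjA).2, max_eq_left (ht j).1, min_eq_left (ht j).2]
        exact t.lt j
      · have h5 := hg3 j hjN hjA
        obtain ⟨h6, h7⟩ := hN1 (g⁻¹ j) ((le_max_left _ _).trans h5)
        rw [h6, h7, max_eq_left (t.nonneg j), min_eq_left (t.le_one j)]
        exact t.lt j
    · obtain ⟨h6, h7⟩ := hN2 j ((le_max_left _ _).trans ((le_max_right _ _).trans (not_lt.1 hjN)))
      rw [h6, h7, max_eq_right (r.nonneg _), min_eq_right (r.le_one _)]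
      exact r.lt _)
  exact ⟨t', h1, psi_mono h2 ((psi_smul k g (hA g hg1) a b r).2 h)⟩

/-- `p` forces that `k` is nowhere dense -/
def Good (k : HS Cond FF) (p : Cond) : Prop :=
  ∀ a b : ℚ, 0 ≤ a → a < b → b ≤ 1 → ∀ q ≤ p, ∃ r ≤ q, ∃ a' b' : ℚ,
    a ≤ a' ∧ a' < b' ∧ b' ≤ b ∧ Psi k a' b' r

lemma main_dense (k : HS Cond FF) (A : Finset ℕ)
    (hA : ∀ g : Equiv.Perm ℕ, (∀ i ∈ A, g i = i) → ∀ p, feq (g • k.1) k.1 p)
    (p : Cond) (hp : Good k p) (i : ℕ) (hiA : i ∉ A) (hlo : p.lo i = 0) (hhi : p.hi i = 1) :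
    ∀ q ≤ p, ∃ s ≤ q, ∃ a' b' : ℚ, Psi k a' b' s ∧ a' < s.lo i ∧ s.hi i < b' := by
  intro q hq
  obtain ⟨q', h1, h2, h3⟩ := q.exists_update i 0 1 le_rfl le_rfl one_pos
  have hq' : q' ≤ p := by
    intro j
    by_cases hj : j = i
    · subst hj
      rw [h1, h2, hlo, hhi]
      exact ⟨le_rfl, le_rfl⟩
    · rw [(h3 j hj).1, (h3 j hj).2]
      exact hq j
  obtain ⟨r, hr, a', b', ha, hab, hb, hPsi⟩ := hp (q.lo i) (q.hi i) (q.nonneg i) (q.lt i)
    (q.le_one i) q' hq'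
  obtain ⟨r0, hr0, hr0'⟩ := r.exists_restrict A
  have hPsi0 := psi_restrict k A hA a' b' r r0 hr0 hPsi
  obtain ⟨m, hm, hm'⟩ := r.exists_merge q A
  have hq0 := q.nonneg i
  have hq1 := q.le_one i
  obtain ⟨s, hs1, hs2, hs3⟩ := m.exists_update i ((2 * a' + b') / 3) ((a' + 2 * b') / 3)
    (by linarith) (by linarith) (by linarith)
  refine ⟨s, ?_, a', b', psi_mono ?_ hPsi0, by rw [hs1]; linarith, by rw [hs2]; linarith⟩
  · intro j
    by_cases hj : j = i
    · subst hj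
      rw [hs1, hs2]
      constructor <;> linarith
    · rw [(hs3 j hj).1, (hs3 j hj).2]
      by_cases hjA : j ∈ A
      · rw [(hm j hjA).1, (hm j hjA).2, ← (h3 j hj).1, ← (h3 j hj).2]
        exact hr j
      · rw [(hm' j hjA).1, (hm' j hjA).2]
        exact ⟨le_rfl, le_rfl⟩
  · intro j
    by_cases hjA : j ∈ A
    · have hj : j ≠ i := fun h => hiA (h ▸ hjA)
      rw [(hs3 j hj).1, (hs3 j hj).2, (hm j hjA).1, (hm j hjA).2, (hr0 j hjA).1, (hr0 j hjA).2]
      exact ⟨le_rfl, le_rfl⟩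
    · rw [(hr0' j hjA).1, (hr0' j hjA).2]
      exact ⟨s.nonneg j, s.le_one j⟩

end MP478558
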