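import Pool.Agent.Lib.MP_478558_lc.Axioms

/-!
The countable symmetric model given by a generic filter.
-/

namespace MP478558

open Name Fml

section filt

variable {P : Type} [Preorder P]

/-- filters on a preorder -/
structure IsFilt (U : Set P) : Prop where
  nonempty : U.Nonempty
  up : ∀ {p q}, p ∈ U → p ≤ q → q ∈ U
  dir : ∀ {p q}, p ∈ U → q ∈ U → ∃ r ∈ U, r ≤ p ∧ r ≤ q

/-- `U` decides the set `S` -/
def Dec (U S : Set P) : Prop := (∃ p ∈ U, p ∈ S) ∨ ∃ p ∈ U, ∀ q ≤ p, q ∉ S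

lemma exists_filter_seq [Nonempty P] (S : ℕ → Set P) : ∃ U : Set P, IsFilt U ∧ ∀ n, Dec U (S n) := by
  classical
  have step : ∀ (n : ℕ) (p : P), ∃ q ≤ p, q ∈ S n ∨ ∀ r ≤ q, r ∉ S n := by
    intro n p
    by_cases h : ∃ q ≤ p, q ∈ S n
    · obtain ⟨q, hq, h⟩ := h
      exact ⟨q, hq, Or.inl h⟩
    · push Not at h
      exact ⟨p, le_rfl, Or.inr h⟩
  choose f hf hf2 using step
  set s : ℕ → P := fun n => Nat.rec (Classical.arbitrary P) (fun n p => f n p) n with hs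
  have hsucc : ∀ n, s (n + 1) = f n (s n) := fun n => rfl
  have hanti : Antitone s := antitone_nat_of_succ_le fun n => by rw [hsucc]; exact hf n _
  refine ⟨{p | ∃ n, s n ≤ p}, ⟨⟨s 0, 0, le_rfl⟩, ?_, ?_⟩, fun n => ?_⟩
  · rintro p q ⟨n, hn⟩ hq
    exact ⟨n, hn.trans hq⟩
  · rintro p q ⟨n, hn⟩ ⟨m, hm⟩
    exact ⟨s (max n m), ⟨_, le_rfl⟩, (hanti (le_max_left _ _)).trans hn,
      (hanti (le_max_right _ _)).trans hm⟩
  · rcases hf2 n (s n) with h | h
    · exact Or.inl ⟨s (n + 1), ⟨n + 1, le_rfl⟩, by rw [hsucc]; exact h⟩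
    · exact Or.inr ⟨s (n + 1), ⟨n + 1, le_rfl⟩, by rw [hsucc]; exact h⟩

lemma exists_filter [Nonempty P] (𝒮 : Set (Set P)) (h : 𝒮.Countable) :
    ∃ U : Set P, IsFilt U ∧ ∀ S ∈ 𝒮, Dec U S := by
  obtain ⟨f, hf⟩ := (h.insert Set.univ).exists_eq_range (Set.insert_nonempty _ _)
  obtain ⟨U, hU, hU2⟩ := exists_filter_seq f
  refine ⟨U, hU, fun S hS => ?_⟩
  have : S ∈ Set.range f := hf ▸ Set.mem_insert_of_mem _ hS
  obtain ⟨n, rfl⟩ := this
  exact hU2 n

lemma Dec.meets {U S : Set P} (hU : IsFilt U) (h : Dec U S) {p : P} (hp : p ∈ U)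
    (hd : ∀ q ≤ p, ∃ r ≤ q, r ∈ S) : ∃ r ∈ U, r ∈ S := by
  rcases h with h | ⟨q, hq, h⟩
  · exact h
  · obtain ⟨r, _, hr1, hr2⟩ := hU.dir hp hq
    obtain ⟨s, hs, hs2⟩ := hd r hr1
    exact absurd hs2 (h s (hs.trans hr2))

end filt

section tc

variable {P G : Type} [Preorder P] [Group G] [OrdAct G P] {𝓕 : Filter G}

/-- transitive closure of a name -/
inductive InTC (W : Name P) : Name P → Prop
  | self : InTC W W
  | child (w : Name P) (i : w.ix) : InTC W w → InTC W (w.ch i)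

/-- hereditarily countable names -/
def HC : Name P → Prop
  | mk ι A _ => Countable ι ∧ ∀ i, HC (A i)

lemma inTC_cases {W w : Name P} (h : InTC W w) : w = W ∨ ∃ i, InTC (W.ch i) w := by
  induction h with
  | self => exact Or.inl rfl
  | child w i _ ih =>
    rcases ih with rfl | ⟨j, hj⟩
    · exact Or.inr ⟨i, InTC.self⟩
    · exact Or.inr ⟨j, InTC.child w i hj⟩

lemma countable_tc (W : Name P) (h : HC W) : {w | InTC W w}.Countable := by
  induction W with
  | mk ι A b ih =>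
    have := h.1
    refine ((Set.countable_singleton (mk ι A b)).union
      (Set.countable_iUnion fun i => ih i (h.2 i))).mono ?_
    intro w hw
    rcases inTC_cases hw with rfl | ⟨i, hi⟩
    · exact Or.inl rfl
    · exact Or.inr (Set.mem_iUnion.2 ⟨i, hi⟩)

lemma InTC.hsp {W w : Name P} (h : HSp 𝓕 W) (hw : InTC W w) : HSp 𝓕 w := by
  induction hw with
  | self => exact h
  | child w i _ ih => exact ih.ch i

end tc

section terms

variable (P : Type)

/-- terms naming the elements of the countable model -/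
def Tm : Type := WType (fun a : ℕ ⊕ (Σ n : ℕ, Fml (n + 1) × P) =>
  Fin (Sum.elim (fun _ => 0) (fun a => a.1) a))

instance [Countable P] : Countable (Tm P) := by
  have : Encodable (ℕ ⊕ (Σ n : ℕ, Fml (n + 1) × P)) := Encodable.ofCountable _
  unfold Tm
  infer_instance

variable {P}

/-- base terms -/
def Tm.base (k : ℕ) : Tm P := WType.mk (Sum.inl k) Fin.elim0

/-- witness terms -/
def Tm.wit {n : ℕ} (φ : Fml (n + 1)) (v : Fin n → Tm P) (p : P) : Tm P :=
  WType.mk (Sum.inr ⟨n, φ, p⟩) v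

end terms

section model

variable {P G : Type} [Preorder P] [Group G] [OrdAct G P] {𝓕 : Filter G}
  (base : ℕ → HS P 𝓕)

/-- value of a term -/
noncomputable def ev : Tm P → HS P 𝓕 :=
  WType.elim _ fun a => match a with
    | ⟨Sum.inl k, _⟩ => base k
    | ⟨Sum.inr ⟨_, φ, p⟩, v⟩ => witN φ v p

lemma ev_base (k : ℕ) : ev base (Tm.base k) = base k := rfl

lemma ev_wit {n : ℕ} (φ : Fml (n + 1)) (v : Fin n → Tm P) (p : P) :
    ev base (Tm.wit φ v p) = witN φ (ev base ∘ v) p := rfl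

/-- the sets that the filter has to decide -/
def stdSets : Set (Set P) :=
  Set.range (fun a : Σ n : ℕ, Fml n × (Fin n → Tm P) => {p | Forces 𝓕 a.2.1 (ev base ∘ a.2.2) p}) ∪
  Set.range (fun a : Σ n : ℕ, Fml (n + 1) × (Fin n → Tm P) =>
    {p | ∃ t, Forces 𝓕 a.2.1 (Fin.cons (ev base t) (ev base ∘ a.2.2)) p}) ∪
  Set.range (fun a : ℕ × Tm P =>
    {p | ∃ i, p ∈ (base a.1).1.cd i ∧ feq (ev base a.2).1 ((base a.1).1.ch i) p})

lemma countable_stdSets [Countable P] : (stdSets base).Countable :=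
  ((Set.countable_range _).union (Set.countable_range _)).union (Set.countable_range _)

variable {U : Set P} (hU : IsFilt U)

/-- equality in the model -/
def stp : Setoid (Tm P) where
  r s t := ∃ p ∈ U, feq (ev base s).1 (ev base t).1 p
  iseqv :=
    { refl := fun s => ⟨_, hU.nonempty.some_mem, feq_refl _ _⟩
      symm := fun ⟨p, hp, h⟩ => ⟨p, hp, feq_symm h⟩
      trans := fun ⟨p, hp, h⟩ ⟨q, hq, h'⟩ => by
        obtain ⟨r, hr, h1, h2⟩ := hU.dir hp hq
        exact ⟨r, hr, feq_trans (feq_mono h1 h) (feq_mono h2 h')⟩ }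

/-- the universe of the model -/
def Mod : Type := Quotient (stp base hU)

/-- value in the model -/
def toM (t : Tm P) : Mod base hU := Quotient.mk (stp base hU) t

lemma toM_surj (x : Mod base hU) : ∃ t, toM base hU t = x := Quotient.exists_rep x

lemma toM_eq (s t : Tm P) :
    toM base hU s = toM base hU t ↔ ∃ p ∈ U, feq (ev base s).1 (ev base t).1 p :=
  Quotient.eq (r := stp base hU)

/-- membership in the model -/
def MemM : Mod base hU → Mod base hU → Prop :=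
  Quotient.lift₂ (fun s t => ∃ p ∈ U, fmem (ev base s).1 (ev base t).1 p) (by
    intro s t s' t' ⟨p, hp, h⟩ ⟨q, hq, h'⟩
    apply propext
    constructor
    · rintro ⟨r, hr, hm⟩
      obtain ⟨a, ha, h1, h2⟩ := hU.dir hp hq
      obtain ⟨b, hb, h3, h4⟩ := hU.dir ha hr
      exact ⟨b, hb, fmem_congr_left (feq_mono (h3.trans h1) h)
        (fmem_congr_right (feq_mono (h3.trans h2) h') (fmem_mono h4 hm))⟩
    · rintro ⟨r, hr, hm⟩
      obtain ⟨a, ha, h1, h2⟩ := hU.dir hp hq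
      obtain ⟨b, hb, h3, h4⟩ := hU.dir ha hr
      exact ⟨b, hb, fmem_congr_left (feq_symm (feq_mono (h3.trans h1) h))
        (fmem_congr_right (feq_symm (feq_mono (h3.trans h2) h')) (fmem_mono h4 hm))⟩)

lemma memM_toM (s t : Tm P) :
    MemM base hU (toM base hU s) (toM base hU t) ↔ ∃ p ∈ U, fmem (ev base s).1 (ev base t).1 p :=
  Iff.rfl

lemma exists_rep {n : ℕ} (v : Fin n → Mod base hU) : ∃ w : Fin n → Tm P, v = toM base hU ∘ w := by
  choose f hf using toM_surj base hU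
  exact ⟨f ∘ v, funext fun i => (hf (v i)).symm⟩

variable (hD : ∀ S ∈ stdSets base, Dec U S)

include hD in
lemma truth {n : ℕ} (φ : Fml n) (v : Fin n → Tm P) :
    Sat (MemM base hU) φ (toM base hU ∘ v) ↔ ∃ p ∈ U, Forces 𝓕 φ (ev base ∘ v) p := by
  induction φ with
  | mem i j => exact memM_toM base hU _ _
  | eq i j => exact toM_eq base hU _ _
  | bot => exact ⟨fun h => h.elim, fun ⟨_, _, h⟩ => h.elim⟩
  | imp φ ψ ih₁ ih₂ =>
    rw [sat_imp, ih₁, ih₂]
    constructor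
    · intro h
      rcases hD _ (Or.inl (Or.inl ⟨⟨_, .imp φ ψ, v⟩, rfl⟩)) with ⟨p, hp, h1⟩ | ⟨p, hp, h1⟩
      · exact ⟨p, hp, h1⟩
      · exfalso
        have h2 := (hD _ (Or.inl (Or.inl ⟨⟨_, conj φ (neg ψ), v⟩, rfl⟩))).meets hU hp (by
          intro q hq
          have h3 : ¬ Forces 𝓕 (.imp φ ψ) (ev base ∘ v) q := h1 q hq
          rw [forces_imp] at h3
          push Not at h3
          obtain ⟨r, hr, h4, h5⟩ := h3
          obtain ⟨s, hs, h6⟩ := exists_forces_neg ψ h5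
          exact ⟨s, hs.trans hr, (forces_conj _ _ _ _).2 ⟨forces_mono φ hs h4, h6⟩⟩)
        obtain ⟨r, hr, h3⟩ := h2
        have h3' : Forces 𝓕 (conj φ (neg ψ)) (ev base ∘ v) r := h3
        rw [forces_conj] at h3'
        obtain ⟨s, hs, h4⟩ := h ⟨r, hr, h3'.1⟩
        obtain ⟨t, _, ht1, ht2⟩ := hU.dir hr hs
        exact h3'.2 t ht1 (forces_mono ψ ht2 h4)
    · rintro ⟨p, hp, h⟩ ⟨q, hq, h'⟩
      obtain ⟨r, hr, h1, h2⟩ := hU.dir hp hq
      exact ⟨r, hr, h r h1 (forces_mono φ h2 h')⟩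
  | all φ ih =>
    rw [sat_all]
    have hcons : ∀ t, Sat (MemM base hU) φ (Fin.cons (toM base hU t) (toM base hU ∘ v)) ↔
        ∃ p ∈ U, Forces 𝓕 φ (Fin.cons (ev base t) (ev base ∘ v)) p := by
      intro t
      have := ih (Fin.cons t v)
      rw [Fin.comp_cons, Fin.comp_cons] at this
      exact this
    constructor
    · intro h
      rcases hD _ (Or.inl (Or.inl ⟨⟨_, .all φ, v⟩, rfl⟩)) with ⟨p, hp, h1⟩ | ⟨p, hp, h1⟩
      · exact ⟨p, hp, h1⟩
      · exfalso
        have h2 := (hD _ (Or.inl (Or.inr ⟨⟨_, neg φ, v⟩, rfl⟩))).meets hU hp (by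
          intro q hq
          have h3 : ¬ Forces 𝓕 (.all φ) (ev base ∘ v) q := h1 q hq
          rw [forces_all] at h3
          push Not at h3
          obtain ⟨x, hx⟩ := h3
          obtain ⟨r, hr, h4⟩ := exists_forces_neg φ hx
          exact ⟨r, hr, Tm.wit (neg φ) v r, forces_witN _ _ _ ⟨x, h4⟩⟩)
        obtain ⟨r, hr, t, h3⟩ := h2
        obtain ⟨s, hs, h4⟩ := (hcons t).1 (h _)
        obtain ⟨a, _, ha1, ha2⟩ := hU.dir hr hs
        exact h3 a ha1 (forces_mono φ ha2 h4)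
    · rintro ⟨p, hp, h⟩ x
      obtain ⟨t, rfl⟩ := toM_surj base hU x
      exact (hcons t).2 ⟨p, hp, h _⟩

include hD in
lemma truth_cons {n : ℕ} (φ : Fml (n + 1)) (t : Tm P) (v : Fin n → Tm P) :
    Sat (MemM base hU) φ (Fin.cons (toM base hU t) (toM base hU ∘ v)) ↔
      ∃ p ∈ U, Forces 𝓕 φ (Fin.cons (ev base t) (ev base ∘ v)) p := by
  have := truth base hU hD φ (Fin.cons t v)
  rw [Fin.comp_cons, Fin.comp_cons] at this
  exact this

include hD in
lemma model_ex {n : ℕ} (φ : Fml (n + 1)) (v : Fin n → Tm P)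
    (h : ∃ x : HS P 𝓕, ∀ p, Forces 𝓕 φ (Fin.cons x (ev base ∘ v)) p) :
    ∃ x, Sat (MemM base hU) φ (Fin.cons x (toM base hU ∘ v)) := by
  obtain ⟨p, hp⟩ := hU.nonempty
  obtain ⟨x, hx⟩ := h
  exact ⟨toM base hU (Tm.wit φ v p), (truth_cons base hU hD φ _ v).2
    ⟨p, hp, forces_witN _ _ _ ⟨x, hx p⟩⟩⟩

include hD in
lemma model_compr {n : ℕ} (ψ : Fml (n + 1)) (v : Fin n → Tm P)
    (h : ∃ w : HS P 𝓕, ∀ (z : HS P 𝓕) (p : P),
      fmem z.1 w.1 p ↔ Forces 𝓕 ψ (Fin.cons z (ev base ∘ v)) p) :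
    ∃ w, ∀ z, MemM base hU z w ↔ Sat (MemM base hU) ψ (Fin.cons z (toM base hU ∘ v)) := by
  obtain ⟨w, hw⟩ := h
  obtain ⟨x, hx⟩ := model_ex base hU hD
    (.all (equ (.mem 0 (Fin.succ 0)) (ren (fsep n) ψ))) v ⟨w, fun p z => by
      rw [forces_equ]
      intro q _
      rw [forces_ren, cons_comp_fsep]
      exact hw z q⟩
  refine ⟨x, fun z => ?_⟩
  have := hx z
  rw [sat_equ, sat_ren, cons_comp_fsep] at this
  exact this

end model

end MP478558
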