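import Pool.Agent.Lib.MP_478558_lc.Model

/-!
The countable symmetric model satisfies ZF.
-/

namespace MP478558

open Name Fml

variable {P G : Type} [Preorder P] [Group G] [OrdAct G P] {𝓕 : Filter G}

/-- the empty name -/
def empN : Name P := mk Empty Empty.elim Empty.elim

/-- the successor of a name -/
def sucN (x : Name P) : Name P :=
  mk (Option x.ix) (fun o => o.elim x x.ch) (fun o => o.elim ⊤ x.cd)

/-- the numerals -/
def natN : ℕ → Name P
  | 0 => empN
  | n + 1 => sucN (natN n)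

/-- the name of `ω` -/
def omegaN : Name P := mk ℕ natN fun _ => ⊤

variable (base : ℕ → HS P 𝓕)

/-- base names -/
def Bs (w : Name P) : Prop := ∃ k, (base k).1 = w

variable {U : Set P} (hU : IsFilt U)

/-- value of a base name in the model -/
noncomputable def nm (w : Name P) : Mod base hU :=
  open Classical in
  if h : Bs base w then toM base hU (Tm.base h.choose) else toM base hU (Tm.base 0)

variable {base}

lemma nm_spec {w : Name P} (h : Bs base w) :
    ∃ t, nm base hU w = toM base hU t ∧ (ev base t).1 = w := by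
  refine ⟨Tm.base h.choose, ?_, ?_⟩
  · rw [nm, dif_pos h]
  · rw [ev_base]; exact h.choose_spec

variable (hB : ∀ w, Bs base w → ∀ i, Bs base (w.ch i))
variable (hD : ∀ S ∈ stdSets base, Dec U S)

include hB hD in
/-- elements of the value of a base name -/
lemma mem_nm {w : Name P} (h : Bs base w) (z : Mod base hU) :
    MemM base hU z (nm base hU w) ↔ ∃ i, (∃ p ∈ U, p ∈ w.cd i) ∧ z = nm base hU (w.ch i) := by
  obtain ⟨s, hs, hs2⟩ := nm_spec hU h
  obtain ⟨t, rfl⟩ := toM_surj base hU z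
  rw [hs, memM_toM, hs2]
  obtain ⟨k, hk⟩ := h
  constructor
  · rintro ⟨p, hp, hm⟩
    have h2 := (hD _ (Or.inr ⟨(k, t), rfl⟩)).meets hU hp (by
      intro q hq
      obtain ⟨r, hr, i, hi, he⟩ := hm q hq
      subst hk
      exact ⟨r, hr, i, hi, he⟩)
    obtain ⟨r, hr, i, hi, he⟩ := h2
    subst hk
    refine ⟨i, ⟨r, hr, hi⟩, ?_⟩
    obtain ⟨s', hs', hs2'⟩ := nm_spec hU (hB _ ⟨k, rfl⟩ i)
    rw [hs', toM_eq, hs2']
    exact ⟨r, hr, he⟩
  · rintro ⟨i, ⟨p, hp, hi⟩, he⟩
    obtain ⟨s', hs', hs2'⟩ := nm_spec hU (hB _ ⟨k, hk⟩ i)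
    rw [hs', toM_eq, hs2'] at he
    obtain ⟨q, hq, he⟩ := he
    obtain ⟨r, hr, h1, h2⟩ := hU.dir hp hq
    exact ⟨r, hr, fmem_congr_left (feq_symm (feq_mono h2 he)) (fmem_mono h1 (fmem_ch _ i hi))⟩

section

variable (hω : Bs base (omegaN : Name P))

include hU hB hD

lemma mem_nm_top {w : Name P} (h : Bs base w) (ht : ∀ i, w.cd i = ⊤) (z : Mod base hU) :
    MemM base hU z (nm base hU w) ↔ ∃ i, z = nm base hU (w.ch i) := by
  rw [mem_nm hU hB hD h]
  refine exists_congr fun i => and_iff_right ?_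
  rw [ht i]
  exact ⟨_, hU.nonempty.some_mem, trivial⟩

lemma mem_nm_emp (h : Bs base (empN : Name P)) (z : Mod base hU) :
    ¬ MemM base hU z (nm base hU empN) := by
  rw [mem_nm hU hB hD h]
  rintro ⟨i, -⟩
  exact i.elim

lemma mem_nm_suc {w : Name P} (h : Bs base (sucN w)) (z : Mod base hU) :
    MemM base hU z (nm base hU (sucN w)) ↔ MemM base hU z (nm base hU w) ∨ z = nm base hU w := by
  have hw : Bs base w := hB _ h none
  rw [mem_nm hU hB hD h, mem_nm hU hB hD hw]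
  constructor
  · rintro ⟨i, h1, h2⟩
    cases i with
    | none => exact Or.inr h2
    | some j => exact Or.inl ⟨j, h1, h2⟩
  · rintro (⟨j, h1, h2⟩ | h)
    · exact ⟨some j, h1, h2⟩
    · exact ⟨none, ⟨_, hU.nonempty.some_mem, trivial⟩, h⟩

include hω

omit hU hD in
lemma bs_nat (n : ℕ) : Bs base (natN n : Name P) := hB _ hω n

lemma isNumeral_nm (n : ℕ) : IsNumeral (MemM base hU) n (nm base hU (natN n)) := by
  induction n with
  | zero => exact fun z => mem_nm_emp hU hB hD (bs_nat hB hω 0) z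
  | succ n ih => exact ⟨_, ih, fun z => mem_nm_suc hU hB hD (bs_nat hB hω (n + 1)) z⟩

lemma mem_omega (z : Mod base hU) :
    MemM base hU z (nm base hU omegaN) ↔ ∃ n, z = nm base hU (natN n) :=
  mem_nm_top hU hB hD hω (fun _ => rfl) z

end

include hD in
lemma model_ext (x y : Mod base hU) (h : ∀ z, MemM base hU z x ↔ MemM base hU z y) : x = y := by
  obtain ⟨s, rfl⟩ := toM_surj base hU x
  obtain ⟨t, rfl⟩ := toM_surj base hU y
  have h1 : Sat (MemM base hU) (.all (equ (.mem 0 (Fin.succ 0)) (.mem 0 (Fin.succ (Fin.succ 0)))))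
      (toM base hU ∘ (Fin.cons s (Fin.cons t Fin.elim0))) := by
    intro z
    rw [sat_equ, Fin.comp_cons, Fin.comp_cons]
    simp only [sat_mem, Fin.cons_zero, Fin.cons_succ]
    exact h z
  rw [truth base hU hD] at h1
  obtain ⟨p, hp, h2⟩ := h1
  rw [toM_eq]
  refine ⟨p, hp, ?_⟩
  have h3 : ∀ z : HS P 𝓕, ∀ q ≤ p, fmem z.1 (ev base s).1 q ↔ fmem z.1 (ev base t).1 q := by
    intro z q hq
    have := h2 z
    rw [forces_equ] at this
    exact this q hq
  rw [feq_iff']
  exact ⟨fun i q hq hi => (h3 (hch _ i) q hq).1 (fmem_ch _ i hi),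
    fun i q hq hi => (h3 (hch _ i) q hq).2 (fmem_ch _ i hi)⟩

include hD in
lemma model_found (x : Mod base hU) (hx : ∃ y, MemM base hU y x) :
    ∃ y, MemM base hU y x ∧ ∀ z, MemM base hU z x → ¬ MemM base hU z y := by
  obtain ⟨s, rfl⟩ := toM_surj base hU x
  by_contra hc
  push Not at hc
  have h1 : Sat (MemM base hU) (.all (.imp (.mem 0 (Fin.succ 0))
      (ex (conj (.mem 0 (Fin.succ (Fin.succ 0))) (.mem 0 (Fin.succ 0))))))
      (toM base hU ∘ (Fin.cons s Fin.elim0)) := by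
    intro y
    rw [sat_imp, sat_ex, Fin.comp_cons]
    simp only [sat_conj, sat_mem, Fin.cons_zero, Fin.cons_succ]
    exact hc y
  rw [truth base hU hD] at h1
  obtain ⟨p, hp, h2⟩ := h1
  obtain ⟨y, hy⟩ := hx
  obtain ⟨t, rfl⟩ := toM_surj base hU y
  rw [memM_toM] at hy
  obtain ⟨q, hq, hy⟩ := hy
  obtain ⟨r, hr, hr1, hr2⟩ := hU.dir hp hq
  refine found_aux (ev base s) p ?_ (ev base t).1 (ev base t).2 r hr1 (fmem_mono hr2 hy)
  intro y q hq hy r hr
  have h3 := h2 y q hq hy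
  rw [forces_ex] at h3
  obtain ⟨a, ha, z, hz⟩ := h3 r hr
  rw [forces_conj] at hz
  exact ⟨a, ha, z, hz.1, hz.2⟩

/-- renaming used in the collection axiom -/
def fcoll (n : ℕ) : Fin (n + 2) → Fin (n + 4) :=
  Fin.cons 0 (Fin.cons (Fin.succ 0) fun i => i.succ.succ.succ.succ)

lemma cons_comp_fcoll {α : Type*} {n : ℕ} (b a c x : α) (v : Fin n → α) :
    (Fin.cons b (Fin.cons a (Fin.cons c (Fin.cons x v))) : Fin (n + 4) → α) ∘ fcoll n =
      Fin.cons b (Fin.cons a v) := by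
  funext i
  refine Fin.cases ?_ (fun i => ?_) i
  · simp only [fcoll, Function.comp_apply, Fin.cons_zero]
  · refine Fin.cases ?_ (fun i => ?_) i <;>
      simp only [fcoll, Function.comp_apply, Fin.cons_zero, Fin.cons_succ]

/-- the formula used in the collection axiom -/
def collF {n : ℕ} (φ : Fml (n + 2)) : Fml (n + 2) :=
  .all (.imp (.mem 0 (Fin.succ (Fin.succ 0))) (.imp (ex (ren (fcoll n) φ))
    (ex (conj (.mem 0 (Fin.succ (Fin.succ 0))) (ren (fcoll n) φ)))))

lemma exists_forces_collF (h𝓕 : Normal 𝓕) {n : ℕ} (φ : Fml (n + 2)) (v : Fin n → HS P 𝓕)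
    (x : HS P 𝓕) : ∃ c : HS P 𝓕, ∀ p, Forces 𝓕 (collF φ) (Fin.cons c (Fin.cons x v)) p := by
  obtain ⟨c, hc⟩ := exists_collN h𝓕 φ v x
  refine ⟨c, fun p a => ?_⟩
  rw [forces_imp]
  intro q hq hmem q' hq' hex
  have hex' : Forces 𝓕 (ex φ) (Fin.cons a v) q' := by
    rw [forces_ex] at hex ⊢
    intro r hr
    obtain ⟨s, hs, b, hb⟩ := hex r hr
    rw [forces_ren, cons_comp_fcoll] at hb
    exact ⟨s, hs, b, hb⟩
  rw [forces_ex]
  intro r hr
  obtain ⟨s, hs, b, hb1, hb2⟩ := hc a q' (fmem_mono hq' hmem) hex' r hr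
  refine ⟨s, hs, b, ?_⟩
  rw [forces_conj, forces_ren, cons_comp_fcoll]
  exact ⟨hb1, hb2⟩

include hD in
lemma model_coll (h𝓕 : Normal 𝓕) {n : ℕ} (φ : Fml (n + 2)) (v : Fin n → Mod base hU)
    (x : Mod base hU) :
    ∃ c, ∀ a, MemM base hU a x → (∃ b, Sat (MemM base hU) φ (Fin.cons b (Fin.cons a v))) →
      ∃ b, MemM base hU b c ∧ Sat (MemM base hU) φ (Fin.cons b (Fin.cons a v)) := by
  obtain ⟨v, rfl⟩ := exists_rep base hU v
  obtain ⟨s, rfl⟩ := toM_surj base hU x
  have h := model_ex base hU hD (collF φ) (Fin.cons s v) (by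
    rw [Fin.comp_cons]
    exact exists_forces_collF h𝓕 φ _ _)
  obtain ⟨c, hc⟩ := h
  refine ⟨c, fun a ha hb => ?_⟩
  have h1 := hc a
  rw [Fin.comp_cons, sat_imp, sat_imp, sat_ex, sat_ex] at h1
  simp only [sat_conj, sat_mem, Fin.cons_zero, Fin.cons_succ, sat_ren, cons_comp_fcoll] at h1
  exact h1 ha hb

include hD in
lemma model_sep (h𝓕 : Normal 𝓕) {n : ℕ} (φ : Fml (n + 1)) (v : Fin n → Mod base hU)
    (x : Mod base hU) :
    ∃ y, ∀ z, MemM base hU z y ↔ MemM base hU z x ∧ Sat (MemM base hU) φ (Fin.cons z v) := by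
  obtain ⟨v, rfl⟩ := exists_rep base hU v
  obtain ⟨s, rfl⟩ := toM_surj base hU x
  have h := model_compr base hU hD (sepF φ) (Fin.cons s v) (by
    rw [Fin.comp_cons]
    exact exists_sepN h𝓕 φ _ _)
  obtain ⟨y, hy⟩ := h
  refine ⟨y, fun z => ?_⟩
  rw [hy z, Fin.comp_cons]
  simp only [sepF, sat_conj, sat_mem, Fin.cons_zero, Fin.cons_succ, sat_ren, cons_comp_fsep]

/-- renaming used in the replacement axiom -/
def frep (n : ℕ) : Fin (n + 2) → Fin (n + 3) :=
  Fin.cons (Fin.succ 0) (Fin.cons 0 fun i => i.succ.succ.succ)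

lemma cons_comp_frep {α : Type*} {n : ℕ} (b a x : α) (v : Fin n → α) :
    (Fin.cons a (Fin.cons b (Fin.cons x v)) : Fin (n + 3) → α) ∘ frep n =
      Fin.cons b (Fin.cons a v) := by
  funext i
  refine Fin.cases ?_ (fun i => ?_) i
  · simp only [frep, Function.comp_apply, Fin.cons_zero, Fin.cons_succ]
  · refine Fin.cases ?_ (fun i => ?_) i <;>
      simp only [frep, Function.comp_apply, Fin.cons_zero, Fin.cons_succ]

include hD hB in
theorem modelsZF (h𝓕 : Normal 𝓕) (hω : Bs base (omegaN : Name P)) :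
    ModelsZF (Mod base hU) (MemM base hU) where
  extensionality x y h := model_ext hU hD x y h
  foundation x h := model_found hU hD x h
  pairing x y := by
    obtain ⟨s, rfl⟩ := toM_surj base hU x
    obtain ⟨t, rfl⟩ := toM_surj base hU y
    have h := model_compr base hU hD (disj (.eq 0 (Fin.succ 0)) (.eq 0 (Fin.succ (Fin.succ 0))))
      (Fin.cons s (Fin.cons t Fin.elim0)) (by
        rw [Fin.comp_cons, Fin.comp_cons]
        obtain ⟨w, hw⟩ := exists_pairN h𝓕 (ev base s) (ev base t)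
        refine ⟨w, fun z p => ?_⟩
        rw [hw z p]
        have : (ev base ∘ Fin.elim0 : Fin 0 → HS P 𝓕) = Fin.elim0 := funext fun i => i.elim0
        rw [this])
    obtain ⟨z, hz⟩ := h
    refine ⟨z, fun w => ?_⟩
    rw [hz w, Fin.comp_cons, Fin.comp_cons]
    simp only [sat_disj, sat_eq, Fin.cons_zero, Fin.cons_succ]
  union x := by
    obtain ⟨s, rfl⟩ := toM_surj base hU x
    have h := model_compr base hU hD
      (ex (conj (.mem 0 (Fin.succ (Fin.succ 0))) (.mem (Fin.succ 0) 0)))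
      (Fin.cons s Fin.elim0) (by
        rw [Fin.comp_cons]
        obtain ⟨w, hw⟩ := exists_unionN h𝓕 (ev base s)
        refine ⟨w, fun z p => ?_⟩
        rw [hw z p]
        have : (ev base ∘ Fin.elim0 : Fin 0 → HS P 𝓕) = Fin.elim0 := funext fun i => i.elim0
        rw [this])
    obtain ⟨z, hz⟩ := h
    refine ⟨z, fun w => ?_⟩
    rw [hz w, Fin.comp_cons]
    simp only [sat_ex, sat_conj, sat_mem, Fin.cons_zero, Fin.cons_succ]
  powerSet x := by
    obtain ⟨s, rfl⟩ := toM_surj base hU x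
    have h := model_compr base hU hD
      (.all (.imp (.mem 0 (Fin.succ 0)) (.mem 0 (Fin.succ (Fin.succ 0)))))
      (Fin.cons s Fin.elim0) (by
        rw [Fin.comp_cons]
        obtain ⟨w, hw⟩ := exists_powN h𝓕 (ev base s)
        refine ⟨w, fun z p => ?_⟩
        rw [hw z p]
        have : (ev base ∘ Fin.elim0 : Fin 0 → HS P 𝓕) = Fin.elim0 := funext fun i => i.elim0
        rw [this])
    obtain ⟨z, hz⟩ := h
    refine ⟨z, fun w => ?_⟩
    rw [hz w, Fin.comp_cons]
    simp only [sat_all, sat_imp, sat_mem, Fin.cons_zero, Fin.cons_succ]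
  infinity := by
    refine ⟨nm base hU omegaN, ⟨nm base hU (natN 0), (mem_omega hU hB hD hω _).2 ⟨0, rfl⟩,
      fun z => mem_nm_emp hU hB hD (bs_nat hB hω 0) z⟩, fun y hy => ?_⟩
    obtain ⟨n, rfl⟩ := (mem_omega hU hB hD hω _).1 hy
    exact ⟨nm base hU (natN (n + 1)), (mem_omega hU hB hD hω _).2 ⟨n + 1, rfl⟩,
      fun z => mem_nm_suc hU hB hD (bs_nat hB hω (n + 1)) z⟩
  separation n φ v x := model_sep hU hD h𝓕 φ v x
  replacement n φ v x h := by
    obtain ⟨c, hc⟩ := model_coll hU hD h𝓕 φ v x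
    obtain ⟨y, hy⟩ := model_sep hU hD h𝓕
      (ex (conj (.mem 0 (Fin.succ (Fin.succ 0))) (ren (frep n) φ))) (Fin.cons x v) c
    refine ⟨y, fun b => ?_⟩
    rw [hy b]
    simp only [sat_ex, sat_conj, sat_mem, Fin.cons_zero, Fin.cons_succ, sat_ren, cons_comp_frep]
    constructor
    · exact fun h => h.2
    · rintro ⟨a, ha, hb⟩
      refine ⟨?_, a, ha, hb⟩
      obtain ⟨b', hb', h'⟩ := hc a ha ⟨b, hb⟩
      rwa [(h a ha).unique hb h']

include hD hB in
theorem isOmegaModel (hω : Bs base (omegaN : Name P)) : IsOmegaModel (MemM base hU) := by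
  refine ⟨nm base hU omegaN, fun z => ?_⟩
  rw [mem_omega hU hB hD hω]
  constructor
  · rintro ⟨n, rfl⟩
    exact ⟨n, isNumeral_nm hU hB hD hω n⟩
  · rintro ⟨n, hn⟩
    refine ⟨n, ?_⟩
    induction n generalizing z with
    | zero =>
      refine model_ext hU hD _ _ fun w => ?_
      exact iff_of_false (hn w) (mem_nm_emp hU hB hD (bs_nat hB hω 0) w)
    | succ n ih =>
      obtain ⟨y, hy, h⟩ := hn
      have := ih y hy
      subst this
      refine model_ext hU hD _ _ fun w => ?_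
      rw [h w]
      exact (mem_nm_suc hU hB hD (bs_nat hB hω (n + 1)) w).symm

end MP478558
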