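import Pool.Agent.Lib.MP_478558_lc.Defs

/-!
Names over a preorder `P` and the forcing relation for atomic formulas.
-/

namespace MP478558

/-- `P`-names -/
inductive Name (P : Type) [Preorder P] : Type 1
  | mk (ι : Type) (A : ι → Name P) (b : ι → LowerSet P) : Name P

namespace Name

variable {P : Type} [Preorder P]

/-- index type -/
def ix : Name P → Type
  | mk ι _ _ => ι

/-- children -/
def ch : (x : Name P) → x.ix → Name P
  | mk _ A _ => A

/-- conditions -/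
def cd : (x : Name P) → x.ix → LowerSet P
  | mk _ _ b => b

@[simp] lemma ix_mk (ι : Type) (A : ι → Name P) (b : ι → LowerSet P) : (mk ι A b).ix = ι := rfl
@[simp] lemma ch_mk (ι : Type) (A : ι → Name P) (b : ι → LowerSet P) : (mk ι A b).ch = A := rfl
@[simp] lemma cd_mk (ι : Type) (A : ι → Name P) (b : ι → LowerSet P) : (mk ι A b).cd = b := rfl
@[simp] lemma mk_eta (x : Name P) : mk x.ix x.ch x.cd = x := by cases x; rfl

/-- forcing of equality -/
def feq : Name P → Name P → P → Prop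
  | mk ι A b, mk κ B c => fun p =>
    (∀ i, ∀ q ≤ p, q ∈ b i → ∀ q' ≤ q, ∃ r ≤ q', ∃ j, r ∈ c j ∧ feq (A i) (B j) r) ∧
    (∀ j, ∀ q ≤ p, q ∈ c j → ∀ q' ≤ q, ∃ r ≤ q', ∃ i, r ∈ b i ∧ feq (A i) (B j) r)

/-- forcing of membership -/
def fmem (x y : Name P) (p : P) : Prop :=
  ∀ q ≤ p, ∃ r ≤ q, ∃ j, r ∈ y.cd j ∧ feq x (y.ch j) r

lemma feq_iff (x y : Name P) (p : P) : feq x y p ↔
    (∀ i, ∀ q ≤ p, q ∈ x.cd i → fmem (x.ch i) y q) ∧
    (∀ j, ∀ q ≤ p, q ∈ y.cd j → ∀ q' ≤ q, ∃ r ≤ q', ∃ i, r ∈ x.cd i ∧ feq (x.ch i) (y.ch j) r) := by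
  cases x; cases y; exact Iff.rfl

lemma feq_mono {x y : Name P} {p q : P} (hq : q ≤ p) (h : feq x y p) : feq x y q := by
  rw [feq_iff] at h ⊢
  exact ⟨fun i r hr => h.1 i r (hr.trans hq), fun j r hr => h.2 j r (hr.trans hq)⟩

lemma fmem_mono {x y : Name P} {p q : P} (hq : q ≤ p) (h : fmem x y p) : fmem x y q :=
  fun r hr => h r (hr.trans hq)

lemma feq_refl (x : Name P) (p : P) : feq x x p := by
  induction x generalizing p with
  | mk ι A b ih =>
    exact ⟨fun i q _ hqb q' hq' => ⟨q', le_refl _, i, (b i).lower hq' hqb, ih i q'⟩,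
      fun i q _ hqb q' hq' => ⟨q', le_refl _, i, (b i).lower hq' hqb, ih i q'⟩⟩

lemma feq_symm {x y : Name P} {p : P} (h : feq x y p) : feq y x p := by
  induction x generalizing y p with
  | mk ι A b ih =>
    cases y with
    | mk κ B c =>
      refine ⟨fun j q hq hqc q' hq' => ?_, fun i q hq hqb q' hq' => ?_⟩
      · obtain ⟨r, hr, i, hi, he⟩ := h.2 j q hq hqc q' hq'
        exact ⟨r, hr, i, hi, ih i he⟩
      · obtain ⟨r, hr, j, hj, he⟩ := h.1 i q hq hqb q' hq'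
        exact ⟨r, hr, j, hj, ih i he⟩

lemma feq_trans {x y z : Name P} {p : P} (h1 : feq x y p) (h2 : feq y z p) : feq x z p := by
  induction x generalizing y z p with
  | mk ι A b ih =>
    cases y with
    | mk κ B c =>
      cases z with
      | mk μ C d =>
        refine ⟨fun i q hq hqb q' hq' => ?_, fun k q hq hqd q' hq' => ?_⟩
        · obtain ⟨r, hr, j, hj, he⟩ := h1.1 i q hq hqb q' hq'
          obtain ⟨s, hs, k, hk, he'⟩ := h2.1 j r (hr.trans (hq'.trans hq)) hj r (le_refl _)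
          exact ⟨s, hs.trans hr, k, hk, ih i (feq_mono hs he) he'⟩
        · obtain ⟨r, hr, j, hj, he⟩ := h2.2 k q hq hqd q' hq'
          obtain ⟨s, hs, i, hi, he'⟩ := h1.2 j r (hr.trans (hq'.trans hq)) hj r (le_refl _)
          exact ⟨s, hs.trans hr, i, hi, ih i he' (feq_mono hs he)⟩

lemma fmem_congr_left {x x' y : Name P} {p : P} (h : feq x x' p) (hm : fmem x y p) : fmem x' y p := by
  intro q hq
  obtain ⟨r, hr, j, hj, he⟩ := hm q hq
  exact ⟨r, hr, j, hj, feq_trans (feq_symm (feq_mono (hr.trans hq) h)) he⟩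

lemma fmem_congr_right {x y y' : Name P} {p : P} (h : feq y y' p) (hm : fmem x y p) : fmem x y' p := by
  intro q hq
  obtain ⟨r, hr, j, hj, he⟩ := hm q hq
  rw [feq_iff] at h
  obtain ⟨s, hs, k, hk, he'⟩ := h.1 j r (hr.trans hq) hj r (le_refl _)
  exact ⟨s, hs.trans hr, k, hk, feq_trans (feq_mono hs he) he'⟩

lemma fmem_ch (x : Name P) (i : x.ix) {p : P} (hp : p ∈ x.cd i) : fmem (x.ch i) x p :=
  fun q hq => ⟨q, le_refl _, i, (x.cd i).lower hq hp, feq_refl _ _⟩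

lemma feq_iff' (x y : Name P) (p : P) : feq x y p ↔
    (∀ i, ∀ q ≤ p, q ∈ x.cd i → fmem (x.ch i) y q) ∧
    (∀ j, ∀ q ≤ p, q ∈ y.cd j → fmem (y.ch j) x q) := by
  rw [feq_iff]
  refine and_congr Iff.rfl ⟨fun h j q hq hj q' hq' => ?_, fun h j q hq hj q' hq' => ?_⟩
  · obtain ⟨r, hr, i, hi, he⟩ := h j q hq hj q' hq'
    exact ⟨r, hr, i, hi, feq_symm he⟩
  · obtain ⟨r, hr, i, hi, he⟩ := h j q hq hj q' hq'
    exact ⟨r, hr, i, hi, feq_symm he⟩

lemma feq_stable {x y : Name P} {p : P} (h : ∀ q ≤ p, ∃ r ≤ q, feq x y r) : feq x y p := by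
  rw [feq_iff']
  constructor
  · intro i q hq hqi q' hq'
    obtain ⟨r, hr, he⟩ := h q' (hq'.trans hq)
    rw [feq_iff'] at he
    obtain ⟨s, hs, h2⟩ := he.1 i r (le_refl _) ((x.cd i).lower (hr.trans hq') hqi) r (le_refl _)
    exact ⟨s, hs.trans hr, h2⟩
  · intro i q hq hqi q' hq'
    obtain ⟨r, hr, he⟩ := h q' (hq'.trans hq)
    rw [feq_iff'] at he
    obtain ⟨s, hs, h2⟩ := he.2 i r (le_refl _) ((y.cd i).lower (hr.trans hq') hqi) r (le_refl _)
    exact ⟨s, hs.trans hr, h2⟩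

lemma fmem_stable {x y : Name P} {p : P} (h : ∀ q ≤ p, ∃ r ≤ q, fmem x y r) : fmem x y p := by
  intro q hq
  obtain ⟨r, hr, hm⟩ := h q hq
  obtain ⟨s, hs, h2⟩ := hm r (le_refl _)
  exact ⟨s, hs.trans hr, h2⟩

end Name

end MP478558
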